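import Pool.Agent.N658.FD.Count
import Pool.Agent.W688.Dos.ZC
import Pool.Agent.W745.Fib.Defs

/-!
The golden mean, zeros of the trace polynomials, almost additivity of the counting functions.
-/

set_option autoImplicit false

namespace Pool.Agent.N658.FD

open Pool.Agent.W811.Stu Pool.Agent.W811.Dos Pool.Agent.W965.Stu Pool.Agent.W745.Fib
open Pool.Agent.H695R3.ST

/-- the golden mean -/
noncomputable def al : ℝ := (Real.sqrt 5 - 1) / 2

lemma al_eq : al = Real.goldenRatio - 1 := by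
  unfold al Real.goldenRatio; ring

lemma al_irr : Irrational al := by
  rw [al_eq]
  simpa using Real.goldenRatio_irrational.sub_intCast 1

lemma al_pos : 0 < al := by
  rw [al_eq]; linarith [Real.one_lt_goldenRatio]

lemma al_lt : al < 1 := by
  rw [al_eq]; linarith [Real.goldenRatio_lt_two]

lemma al_inv : al⁻¹ = al + 1 := by
  have h := Real.goldenRatio_sq
  have h0 := al_pos
  have : al * (al + 1) = 1 := by
    rw [al_eq]; linear_combination h
  field_simp
  linarith

lemma gauss_al : gauss al = al := by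
  unfold gauss
  rw [al_inv, Int.fract_add_one, Int.fract_eq_self]
  exact ⟨al_pos.le, al_lt⟩

lemma dig_al : dig al = one := by
  funext k
  have h : gauss^[k] al = al := by
    induction k with
    | zero => rfl
    | succ k ih => rw [Function.iterate_succ_apply', ih, gauss_al]
  unfold dig one
  rw [h, al_inv, Nat.floor_eq_iff (by linarith [al_pos])]
  push_cast
  constructor <;> linarith [al_pos, al_lt]

lemma QQ_one (k : ℕ) : QQ one k = Nat.fib k := by
  have : QQ one k = Nat.fib k ∧ QQ one (k + 1) = Nat.fib (k + 1) := by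
    induction k with
    | zero => exact ⟨rfl, rfl⟩
    | succ k ih =>
      refine ⟨ih.2, ?_⟩
      rw [QQ_succ, ih.1, ih.2, Nat.fib_add_two]
      unfold one
      ring
  exact this.1

/-- zeros of `tr lam n` for `n ≥ 2` -/
noncomputable def Zr (lam : ℝ) (n : ℕ) : Finset ℝ := zs lam (n - 1) one

lemma mem_Zr {lam : ℝ} (hl : 0 < lam) {n : ℕ} (hn : 2 ≤ n) (E : ℝ) :
    E ∈ Zr lam n ↔ tr lam n E = 0 := by
  have h := (Pool.Agent.W688.Dos.zc lam hl al al_irr al_pos al_lt (n - 1) (by omega)).1 E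
  rw [dig_al] at h
  unfold Zr
  rw [h, Pool.Agent.W745.Fib.orb_y, show n - 1 + 1 = n by omega]

lemma card_Zr {lam : ℝ} (hl : 0 < lam) {n : ℕ} (hn : 2 ≤ n) : (Zr lam n).card = Nat.fib n := by
  have h := (Pool.Agent.W688.Dos.zc lam hl al al_irr al_pos al_lt (n - 1) (by omega)).2.1
  rw [dig_al, QQ_one, show n - 1 + 1 = n by omega] at h
  exact h

lemma Zr_le {lam : ℝ} (hl : 0 < lam) {n : ℕ} (hn : 2 ≤ n) {E : ℝ} (hE : E ∈ Zr lam n) :
    |E| ≤ 2 + lam := by
  have h := (Pool.Agent.W688.Dos.zc lam hl al al_irr al_pos al_lt (n - 1) (by omega)).2.2 E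
  rw [dig_al] at h
  exact h hE

lemma Zr_D {lam : ℝ} (hl : 0 < lam) {n : ℕ} (hn : 2 ≤ n) {E : ℝ} (hE : E ∈ Zr lam n) :
    (D (pot lam al 0) 1 (Nat.fib n)).eval E = 0 := by
  have h := orb_y_D (lam := lam) (E := E) al_irr al_pos al_lt (n - 2)
  rw [dig_al, QQ_one, Pool.Agent.W745.Fib.orb_y, show n - 2 + 1 + 1 = n by omega,
    (mem_Zr hl hn E).1 hE, mul_zero] at h
  exact h.symm

/-- **almost additivity** -/
theorem cle_rec {lam : ℝ} (hl : 0 < lam) {n : ℕ} (hn : 2 ≤ n) (E : ℝ) :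
    cle (Zr lam (n + 1)) E + cle (Zr lam n) E ≤ cle (Zr lam (n + 2)) E + 2 ∧
    cle (Zr lam (n + 2)) E ≤ cle (Zr lam (n + 1)) E + cle (Zr lam n) E + 2 := by
  have f1 : Nat.fib (n + 2) = Nat.fib (n + 1) + Nat.fib n := by rw [Nat.fib_add_two, add_comm]
  have p0 : 1 ≤ Nat.fib n := Nat.fib_pos.2 (by omega)
  have p1 : 2 ≤ Nat.fib (n + 1) := by
    calc 2 = Nat.fib 3 := rfl
      _ ≤ Nat.fib (n + 1) := Nat.fib_mono (by omega)
  refine cle_almost (V := pot lam al 0) (q1 := Nat.fib (n + 1)) (q2 := Nat.fib n) (by omega) p0 ?_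
    (card_Zr hl (by omega)) (card_Zr hl hn) (by rw [card_Zr hl (by omega), f1])
    (fun x hx => Zr_D hl (by omega) hx) (fun x hx => Zr_D hl hn hx)
    (fun x hx => by rw [← f1]; exact Zr_D hl (by omega) hx) E
  intro j hj
  have h := pot_shift (lam := lam) al_irr al_pos al_lt n (n := 1 + (j : ℤ)) (by omega) (by
    rw [dig_al, QQ_one, f1]; push_cast; omega)
  rw [dig_al, QQ_one] at h
  rw [← h]
  congr 1
  push_cast
  ring

end Pool.Agent.N658.FD
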