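import Pool.Agent.N658.FD.Basic
import Pool.Agent.Y662.FIB.Rate

/-!
Bands and zeros.
-/

set_option autoImplicit false

open Set Filter Topology

namespace Pool.Agent.N658.FD

open Pool.Agent.W811.Stu Pool.Agent.W745.Fib Pool.Agent.Y662.FIB

/-- the values at the ends of the bands -/
lemma edge_ge {f : ℝ → ℝ} (hf : Continuous f) {N : ℕ} {u v : Fin N → ℝ}
    (hlt : ∀ j, u j < v j) (hord : ∀ i j, i < j → v i < u j)
    (hS : {x : ℝ | |f x| ≤ 1} = ⋃ j, Icc (u j) (v j)) (j : Fin N) :
    1 ≤ |f (u j)| ∧ 1 ≤ |f (v j)| := by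
  constructor
  · by_contra hcon
    push Not at hcon
    have h1 : ∀ᶠ x in 𝓝[<] (u j), |f x| < 1 :=
      nhdsWithin_le_nhds ((hf.abs.continuousAt).eventually (gt_mem_nhds hcon))
    have h2 : ∀ᶠ x in 𝓝[<] (u j), ∀ i, i < j → v i < x := by
      rw [eventually_all]
      intro i
      by_cases hi : i < j
      · have := nhdsWithin_le_nhds (s := Iio (u j)) (lt_mem_nhds (hord i j hi))
        filter_upwards [this] with x hx _
        exact hx
      · exact Eventually.of_forall fun x h => absurd h hi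
    obtain ⟨x, hx1, hx2, hx3⟩ := (h1.and (h2.and self_mem_nhdsWithin)).exists
    have hx : x ∈ {x : ℝ | |f x| ≤ 1} := hx1.le
    rw [hS, mem_iUnion] at hx
    obtain ⟨i, hi⟩ := hx
    have hx3' : x < u j := hx3
    rcases lt_trichotomy i j with h | h | h
    · have := hx2 i h; linarith [hi.2]
    · subst h; linarith [hi.1]
    · have := hord j i h; linarith [hi.1, hlt j]
  · by_contra hcon
    push Not at hcon
    have h1 : ∀ᶠ x in 𝓝[>] (v j), |f x| < 1 :=
      nhdsWithin_le_nhds ((hf.abs.continuousAt).eventually (gt_mem_nhds hcon))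
    have h2 : ∀ᶠ x in 𝓝[>] (v j), ∀ i, j < i → x < u i := by
      rw [eventually_all]
      intro i
      by_cases hi : j < i
      · have := nhdsWithin_le_nhds (s := Ioi (v j)) (gt_mem_nhds (hord j i hi))
        filter_upwards [this] with x hx _
        exact hx
      · exact Eventually.of_forall fun x h => absurd h hi
    obtain ⟨x, hx1, hx2, hx3⟩ := (h1.and (h2.and self_mem_nhdsWithin)).exists
    have hx : x ∈ {x : ℝ | |f x| ≤ 1} := hx1.le
    rw [hS, mem_iUnion] at hx
    obtain ⟨i, hi⟩ := hx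
    have hx3' : v j < x := hx3
    rcases lt_trichotomy i j with h | h | h
    · have := hord i j h; linarith [hi.2, hlt j]
    · subst h; linarith [hi.2]
    · have := hx2 i h; linarith [hi.1]

/-- **bands, with zeros and counting** -/
theorem bnds {n : ℕ} (hn : 3 ≤ n) : ∃ u v : Fin (Nat.fib n) → ℝ → ℝ,
    (∀ l : ℝ, 0 < l → ∀ y, |tr l n y| ≤ 1 → ∃ j, y ∈ Icc (u j l) (v j l)) ∧
    (∀ l : ℝ, 0 < l → ∀ j, ∀ y ∈ Icc (u j l) (v j l), |tr l n y| ≤ 1 ∧
      ((j : ℕ) : ℝ) ≤ cle (Zr l n) y ∧ (cle (Zr l n) y : ℝ) ≤ (j : ℕ) + 1) ∧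
    (∀ l : ℝ, 0 < l → ∀ j, u j l < v j l ∧
      ∃ z ∈ Icc (u j l) (v j l), tr l n z = 0 ∧ |tr l n (v j l)| = 1) ∧
    (∀ a b : ℝ, 0 < a → a ≤ b → ∀ j, v j b - u j b ≤ v j a - u j a) := by
  obtain ⟨u, v, hE, hord, hS⟩ := bands (n := n) (by omega)
  refine ⟨u, v, ?_, ?_, ?_, ?_⟩
  · intro l hl y hy
    have : y ∈ {E : ℝ | |tr l n E| ≤ 1} := hy
    rw [hS l hl, mem_iUnion] at this
    exact this
  · intro l hl j y hy
    refine ⟨(hE j).le l hl y hy, ?_⟩
    have hz : ∀ j, ∃ z ∈ Icc (u j l) (v j l), tr l n z = 0 := by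
      intro j
      obtain ⟨h1, h2⟩ := edge_ge (cont_tr l n) (fun j => (hE j).lt l hl) (hord l hl) (hS l hl) j
      have h3 := (hE j).le l hl (u j l) ⟨le_rfl, ((hE j).lt l hl).le⟩
      have h4 := (hE j).le l hl (v j l) ⟨((hE j).lt l hl).le, le_rfl⟩
      have h5 : |tr l n (u j l)| = 1 := le_antisymm h3 h1
      have h6 : |tr l n (v j l)| = 1 := le_antisymm h4 h2
      have hmem1 : u j l ∈ Icc (u j l) (v j l) := ⟨le_rfl, ((hE j).lt l hl).le⟩
      have hmem2 : v j l ∈ Icc (u j l) (v j l) := ⟨((hE j).lt l hl).le, le_rfl⟩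
      rcases mono_seg hl (by omega : 1 ≤ n) ((hE j).le l hl) with hm | hm
      · have := hm hmem1 hmem2 ((hE j).lt l hl)
        have k1 : tr l n (u j l) = -1 := by
          rcases (abs_eq zero_le_one).1 h5 with h | h
          · have := (abs_le.1 h4).2; linarith
          · exact h
        have k2 : tr l n (v j l) = 1 := by
          rcases (abs_eq zero_le_one).1 h6 with h | h
          · exact h
          · linarith
        obtain ⟨z, hz1, hz2⟩ := intermediate_value_Icc ((hE j).lt l hl).le
          (cont_tr l n).continuousOn (show (0:ℝ) ∈ Icc _ _ from ⟨by rw [k1]; norm_num,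
            by rw [k2]; norm_num⟩)
        exact ⟨z, hz1, hz2⟩
      · have := hm hmem1 hmem2 ((hE j).lt l hl)
        have k1 : tr l n (u j l) = 1 := by
          rcases (abs_eq zero_le_one).1 h5 with h | h
          · exact h
          · have := (abs_le.1 h4).1; linarith
        have k2 : tr l n (v j l) = -1 := by
          rcases (abs_eq zero_le_one).1 h6 with h | h
          · linarith
          · exact h
        obtain ⟨z, hz1, hz2⟩ := intermediate_value_Icc' ((hE j).lt l hl).le
          (cont_tr l n).continuousOn (show (0:ℝ) ∈ Icc _ _ from ⟨by rw [k2]; norm_num,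
            by rw [k1]; norm_num⟩)
        exact ⟨z, hz1, hz2⟩
    choose z hz1 hz2 using hz
    have hinj : Function.Injective z := by
      intro i j hij
      by_contra hne
      rcases lt_or_gt_of_ne hne with h | h
      · have := hord l hl i j h
        have a1 := (hz1 i).2
        have a2 := (hz1 j).1
        rw [hij] at a1
        linarith
      · have := hord l hl j i h
        have a1 := (hz1 j).2
        have a2 := (hz1 i).1
        rw [hij] at a2
        linarith
    have himg : Finset.univ.image z = Zr l n := by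
      apply Finset.eq_of_subset_of_card_le
      · intro x hx
        rw [Finset.mem_image] at hx
        obtain ⟨i, -, rfl⟩ := hx
        exact (mem_Zr hl (by omega) _).2 (hz2 i)
      · rw [Finset.card_image_of_injective _ hinj, card_Zr hl (by omega), Finset.card_univ,
          Fintype.card_fin]
    have hcount : cle (Zr l n) y = (Finset.univ.filter (fun i => z i ≤ y)).card := by
      unfold cle
      rw [← himg, Finset.filter_image, Finset.card_image_of_injective _ hinj]
    rw [hcount]
    have s1 : Finset.Iio j ⊆ Finset.univ.filter (fun i => z i ≤ y) := by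
      intro i hi
      rw [Finset.mem_Iio] at hi
      rw [Finset.mem_filter]
      refine ⟨Finset.mem_univ _, ?_⟩
      have := hord l hl i j hi
      linarith [(hz1 i).2, hy.1]
    have s2 : Finset.univ.filter (fun i => z i ≤ y) ⊆ Finset.Iic j := by
      intro i hi
      rw [Finset.mem_filter] at hi
      rw [Finset.mem_Iic]
      by_contra hcon
      rw [not_le] at hcon
      have := hord l hl j i hcon
      linarith [(hz1 i).1, hy.2, hi.2]
    have c1 := Finset.card_le_card s1
    have c2 := Finset.card_le_card s2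
    rw [Fin.card_Iio] at c1
    rw [Fin.card_Iic] at c2
    constructor
    · exact_mod_cast c1
    · exact_mod_cast c2
  · intro l hl j
    refine ⟨(hE j).lt l hl, ?_⟩
    obtain ⟨h1, h2⟩ := edge_ge (cont_tr l n) (fun j => (hE j).lt l hl) (hord l hl) (hS l hl) j
    have h3 := (hE j).le l hl (u j l) ⟨le_rfl, ((hE j).lt l hl).le⟩
    have h4 := (hE j).le l hl (v j l) ⟨((hE j).lt l hl).le, le_rfl⟩
    have h5 : |tr l n (u j l)| = 1 := le_antisymm h3 h1
    have h6 : |tr l n (v j l)| = 1 := le_antisymm h4 h2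
    have hmem1 : u j l ∈ Icc (u j l) (v j l) := ⟨le_rfl, ((hE j).lt l hl).le⟩
    have hmem2 : v j l ∈ Icc (u j l) (v j l) := ⟨((hE j).lt l hl).le, le_rfl⟩
    rcases mono_seg hl (by omega : 1 ≤ n) ((hE j).le l hl) with hm | hm
    · have := hm hmem1 hmem2 ((hE j).lt l hl)
      have k1 : tr l n (u j l) = -1 := by
        rcases (abs_eq zero_le_one).1 h5 with h | h
        · have := (abs_le.1 h4).2; linarith
        · exact h
      have k2 : tr l n (v j l) = 1 := by
        rcases (abs_eq zero_le_one).1 h6 with h | h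
        · exact h
        · linarith
      obtain ⟨z, hz1, hz2⟩ := intermediate_value_Icc ((hE j).lt l hl).le
        (cont_tr l n).continuousOn (show (0:ℝ) ∈ Icc _ _ from ⟨by rw [k1]; norm_num,
          by rw [k2]; norm_num⟩)
      exact ⟨z, hz1, hz2, h6⟩
    · have := hm hmem1 hmem2 ((hE j).lt l hl)
      have k1 : tr l n (u j l) = 1 := by
        rcases (abs_eq zero_le_one).1 h5 with h | h
        · exact h
        · have := (abs_le.1 h4).1; linarith
      have k2 : tr l n (v j l) = -1 := by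
        rcases (abs_eq zero_le_one).1 h6 with h | h
        · linarith
        · exact h
      obtain ⟨z, hz1, hz2⟩ := intermediate_value_Icc' ((hE j).lt l hl).le
        (cont_tr l n).continuousOn (show (0:ℝ) ∈ Icc _ _ from ⟨by rw [k2]; norm_num,
          by rw [k1]; norm_num⟩)
      exact ⟨z, hz1, hz2, h6⟩
  · intro a b ha hab j
    rcases eq_or_lt_of_le hab with h | h
    · rw [h]
    · exact (shrink hn (hE j) (mem_Ioi.2 ha) (mem_Ioi.2 (ha.trans h)) h).le

/-- at most one zero in a segment on which the trace function is small -/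
theorem cle_seg {l : ℝ} (hl : 0 < l) {n : ℕ} (hn : 2 ≤ n) {κ : ℝ} (hκ : κ < cc (l / 2)) {E E' : ℝ}
    (h : ∀ e ∈ Icc E E', |tr l n e| ≤ κ) :
    cle (Zr l n) E' ≤ cle (Zr l n) E + 1 := by
  have hne : ∀ e ∈ Icc E E', dE l n e ≠ 0 := fun e he =>
    (hZ l hl.ne' n (by omega)).1 e (lt_of_le_of_lt (h e he) hκ)
  have huniq : ∀ x ∈ Icc E E', ∀ y ∈ Icc E E', x < y → tr l n x = 0 → tr l n y = 0 → False := by
    intro x hx y hy hxy h1 h2
    obtain ⟨c, hc, hc0⟩ := exists_hasDerivAt_eq_zero (f := tr l n) (f' := dE l n) hxy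
      (cont_tr l n).continuousOn (h1.trans h2.symm) (fun e _ => hasDeriv_tr l n e)
    exact hne c ⟨hx.1.trans hc.1.le, hc.2.le.trans hy.2⟩ hc0
  unfold cle
  have hsub : (Zr l n).filter (fun x => x ≤ E') ⊆
      (Zr l n).filter (fun x => x ≤ E) ∪ (Zr l n).filter (fun x => E < x ∧ x ≤ E') := by
    intro x hx
    rw [Finset.mem_filter] at hx
    rw [Finset.mem_union, Finset.mem_filter, Finset.mem_filter]
    rcases le_or_gt x E with h1 | h1
    · exact Or.inl ⟨hx.1, h1⟩
    · exact Or.inr ⟨hx.1, h1, hx.2⟩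
  have h1 := (Finset.card_le_card hsub).trans (Finset.card_union_le _ _)
  have h2 : ((Zr l n).filter (fun x => E < x ∧ x ≤ E')).card ≤ 1 := by
    rw [Finset.card_le_one]
    intro x hx y hy
    rw [Finset.mem_filter] at hx hy
    have hx0 := (mem_Zr hl hn x).1 hx.1
    have hy0 := (mem_Zr hl hn y).1 hy.1
    rcases lt_trichotomy x y with h3 | h3 | h3
    · exact (huniq x ⟨hx.2.1.le, hx.2.2⟩ y ⟨hy.2.1.le, hy.2.2⟩ h3 hx0 hy0).elim
    · exact h3
    · exact (huniq y ⟨hy.2.1.le, hy.2.2⟩ x ⟨hx.2.1.le, hx.2.2⟩ h3 hy0 hx0).elim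
  omega

end Pool.Agent.N658.FD
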