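import Mathlib

/-!
Convergence of distribution functions.
-/

set_option autoImplicit false

open MeasureTheory Filter Topology Set ProbabilityTheory

namespace Pool.Agent.N658.FD

lemma cdf_cont (μ : Measure ℝ) [IsProbabilityMeasure μ] {E : ℝ} (hE : μ {E} = 0) :
    ContinuousAt (cdf μ) E := by
  have h1 : (cdf μ).measure {E} = 0 := by rw [measure_cdf]; exact hE
  rw [StieltjesFunction.measure_singleton, ENNReal.ofReal_eq_zero] at h1
  rw [(cdf μ).mono.continuousAt_iff_leftLim_eq_rightLim]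
  have h2 : Function.rightLim (cdf μ) E = cdf μ E := (cdf μ).rightLim_eq E
  have h3 : Function.leftLim (cdf μ) E ≤ cdf μ E := (cdf μ).mono.leftLim_le le_rfl
  rw [h2]
  linarith

/-- a ramp from `1` to `0` -/
noncomputable def ramp (a δ x : ℝ) : ℝ := max 0 (min 1 ((a + δ - x) / δ))

lemma ramp_cont (a δ : ℝ) : Continuous (ramp a δ) := by unfold ramp; fun_prop

lemma ramp_mem (a δ x : ℝ) : 0 ≤ ramp a δ x ∧ ramp a δ x ≤ 1 :=
  ⟨le_max_left _ _, max_le zero_le_one (min_le_left _ _)⟩

lemma ramp_one {a δ x : ℝ} (hδ : 0 < δ) (h : x ≤ a) : ramp a δ x = 1 := by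
  unfold ramp
  rw [min_eq_left, max_eq_right zero_le_one]
  rw [le_div_iff₀ hδ]; linarith

lemma ramp_zero {a δ x : ℝ} (hδ : 0 < δ) (h : a + δ ≤ x) : ramp a δ x = 0 := by
  unfold ramp
  rw [max_eq_left]
  exact (min_le_right _ _).trans (div_nonpos_of_nonpos_of_nonneg (by linarith) hδ.le)

lemma ramp_int (μ : Measure ℝ) [IsProbabilityMeasure μ] {a δ : ℝ} (hδ : 0 < δ) :
    cdf μ a ≤ ∫ x, ramp a δ x ∂μ ∧ ∫ x, ramp a δ x ∂μ ≤ cdf μ (a + δ) := by
  have hi : Integrable (ramp a δ) μ := by
    refine Integrable.of_bound (ramp_cont a δ).aestronglyMeasurable 1 (Eventually.of_forall ?_)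
    intro x
    rw [Real.norm_eq_abs, abs_of_nonneg (ramp_mem a δ x).1]
    exact (ramp_mem a δ x).2
  rw [cdf_eq_real, cdf_eq_real, ← integral_indicator_one measurableSet_Iic,
    ← integral_indicator_one measurableSet_Iic]
  constructor
  · refine integral_mono ((integrable_const (1:ℝ)).indicator measurableSet_Iic) hi fun x => ?_
    by_cases h : x ≤ a
    · rw [indicator_of_mem (show x ∈ Iic a from h), Pi.one_apply, ramp_one hδ h]
    · rw [indicator_of_notMem (show x ∉ Iic a from h)]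
      exact (ramp_mem a δ x).1
  · refine integral_mono hi ((integrable_const (1:ℝ)).indicator measurableSet_Iic) fun x => ?_
    by_cases h : x ≤ a + δ
    · rw [indicator_of_mem (show x ∈ Iic (a + δ) from h), Pi.one_apply]
      exact (ramp_mem a δ x).2
    · rw [indicator_of_notMem (show x ∉ Iic (a + δ) from h), ramp_zero hδ (not_le.1 h).le]

lemma card_filter_le (M : Multiset ℝ) {a δ : ℝ} (hδ : 0 < δ) :
    ((M.filter (fun x => x ≤ a)).card : ℝ) ≤ (M.map (ramp a δ)).sum ∧
      (M.map (ramp a δ)).sum ≤ ((M.filter (fun x => x ≤ a + δ)).card : ℝ) := by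
  induction M using Multiset.induction_on with
  | empty => simp
  | cons b M ih =>
    constructor
    · rw [Multiset.map_cons, Multiset.sum_cons]
      by_cases h : b ≤ a
      · rw [Multiset.filter_cons_of_pos (p := fun x => x ≤ a) _ h, Multiset.card_cons, ramp_one hδ h]
        push_cast
        linarith [ih.1]
      · rw [Multiset.filter_cons_of_neg (p := fun x => x ≤ a) _ h]
        linarith [ih.1, (ramp_mem a δ b).1]
    · rw [Multiset.map_cons, Multiset.sum_cons]
      by_cases h : b ≤ a + δ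
      · rw [Multiset.filter_cons_of_pos (p := fun x => x ≤ a + δ) _ h, Multiset.card_cons]
        push_cast
        linarith [ih.2, (ramp_mem a δ b).2]
      · rw [Multiset.filter_cons_of_neg (p := fun x => x ≤ a + δ) _ h, ramp_zero hδ (not_le.1 h).le]
        linarith [ih.2]

/-- **convergence of the distribution functions** -/
theorem cdf_lim {M : ℕ → Multiset ℝ} {c : ℕ → ℝ} (hc : ∀ m, 0 ≤ c m) {μ : Measure ℝ}
    [IsProbabilityMeasure μ]
    (h : ∀ g : ℝ → ℝ, Continuous g → (∀ x, 0 ≤ g x ∧ g x ≤ 1) →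
      Tendsto (fun m => ((M m).map g).sum / c m) atTop (𝓝 (∫ x, g x ∂μ))) {E : ℝ}
    (hE : μ {E} = 0) :
    Tendsto (fun m => (((M m).filter (fun x => x ≤ E)).card : ℝ) / c m) atTop (𝓝 (cdf μ E)) := by
  have hcont := cdf_cont μ hE
  rw [Metric.tendsto_atTop]
  intro ε hε
  obtain ⟨δ, hδ, hd⟩ := Metric.continuousAt_iff.1 hcont (ε / 2) (by linarith)
  have e1 := ramp_int μ (a := E) (δ := δ / 2) (by linarith)
  have e2 := ramp_int μ (a := E - δ / 2) (δ := δ / 2) (by linarith)
  have d1 := hd (x := E + δ / 2) (by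
    rw [Real.dist_eq, add_sub_cancel_left, abs_of_pos (by linarith)]; linarith)
  have d2 := hd (x := E - δ / 2) (by
    rw [Real.dist_eq, show E - δ / 2 - E = -(δ / 2) by ring, abs_neg, abs_of_pos (by linarith)]
    linarith)
  rw [Real.dist_eq, abs_lt] at d1 d2
  obtain ⟨N1, h1⟩ := Metric.tendsto_atTop.1 (h _ (ramp_cont E (δ / 2)) (ramp_mem E (δ / 2)))
    (ε / 2) (by linarith)
  obtain ⟨N2, h2⟩ := Metric.tendsto_atTop.1
    (h _ (ramp_cont (E - δ / 2) (δ / 2)) (ramp_mem (E - δ / 2) (δ / 2))) (ε / 2) (by linarith)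
  refine ⟨max N1 N2, fun m hm => ?_⟩
  have k1 := h1 m ((le_max_left _ _).trans hm)
  have k2 := h2 m ((le_max_right _ _).trans hm)
  rw [Real.dist_eq, abs_lt] at k1 k2
  have f1 := (card_filter_le (M m) (a := E) (δ := δ / 2) (by linarith)).1
  have f2 := (card_filter_le (M m) (a := E - δ / 2) (δ := δ / 2) (by linarith)).2
  rw [sub_add_cancel] at f2 e2
  have g1 := div_le_div_of_nonneg_right f1 (hc m)
  have g2 := div_le_div_of_nonneg_right f2 (hc m)
  rw [Real.dist_eq, abs_lt]
  constructor <;> linarith [e1.1, e1.2, e2.1, e2.2]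

end Pool.Agent.N658.FD
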