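import Pool.Agent.W335.Dos.Na

/-!
Counting zeros of trace polynomials: almost additivity under concatenation.
-/

set_option autoImplicit false

namespace Pool.Agent.N658.FD

open Polynomial Finset
open Pool.Agent.H695R3.ST Pool.Agent.W335.Dos
open scoped ComplexConjugate

/-- the sum `∑ conj ψ (Δ + V) ψ` over the window -/
noncomputable def frm (V : ℤ → ℝ) (q : ℕ) (p : ℕ → ℂ) : ℂ :=
  ∑ i ∈ range q, conj (p (i + 1)) * (p (i + 2) + p i + (V (1 + i) : ℂ) * p (i + 1))

/-- a family of Bloch functions -/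
structure Fam (V : ℤ → ℝ) (q : ℕ) {ι : Type} (e : ι → ℝ) (U : ι → ℕ → ℂ) : Prop where
  bl : ∀ x, Bl V q (e x) (U x)
  inj : Function.Injective e

noncomputable def cmb {ι : Type} [Fintype ι] (a : ι → ℂ) (U : ι → ℕ → ℂ) (k : ℕ) : ℂ :=
  ∑ x, a x * U x k

section
variable {V : ℤ → ℝ} {q : ℕ} {ι : Type} [Fintype ι] {e : ι → ℝ} {U : ι → ℕ → ℂ}

omit [Fintype ι] in
lemma Fam.orth (h : Fam V q e U) : ∀ x y, x ≠ y →
    ∑ i ∈ range q, conj (U x (i + 1)) * U y (i + 1) = 0 := fun x y hxy =>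
  bl_orth (h.bl x) (h.bl y) (fun he => hxy (h.inj he))

lemma Fam.norm (h : Fam V q e U) (a : ι → ℂ) :
    ∑ i ∈ range q, Complex.normSq (cmb a U (i + 1)) =
      ∑ x, Complex.normSq (a x) * ∑ i ∈ range q, Complex.normSq (U x (i + 1)) :=
  pyth q U h.orth a

lemma Fam.z0 (h : Fam V q e U) (a : ι → ℂ) : cmb a U q = Complex.I * cmb a U 0 := by
  unfold cmb
  rw [mul_sum]
  refine sum_congr rfl fun x _ => ?_
  rw [(h.bl x).e0]; ring

lemma Fam.z1 (h : Fam V q e U) (a : ι → ℂ) : cmb a U (q + 1) = Complex.I * cmb a U 1 := by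
  unfold cmb
  rw [mul_sum]
  refine sum_congr rfl fun x _ => ?_
  rw [(h.bl x).e1]; ring

lemma Fam.form (h : Fam V q e U) (a : ι → ℂ) :
    frm V q (cmb a U) =
      ((∑ x, e x * (Complex.normSq (a x) * ∑ i ∈ range q, Complex.normSq (U x (i + 1))) : ℝ) : ℂ) := by
  classical
  have h1 : ∀ i, cmb a U (i + 2) + cmb a U i + (V (1 + i) : ℂ) * cmb a U (i + 1) =
      ∑ x, a x * ((e x : ℂ) * U x (i + 1)) := by
    intro i
    unfold cmb
    rw [mul_sum, ← sum_add_distrib, ← sum_add_distrib]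
    refine sum_congr rfl fun x _ => ?_
    rw [(h.bl x).rc i]; ring
  unfold frm
  simp only [h1]
  have h2 : ∀ i, conj (cmb a U (i + 1)) * ∑ x, a x * ((e x : ℂ) * U x (i + 1)) =
      ∑ x, ∑ y, (conj (a x) * (a y * e y)) * (conj (U x (i + 1)) * U y (i + 1)) := by
    intro i
    unfold cmb
    rw [map_sum, sum_mul_sum]
    refine sum_congr rfl fun x _ => sum_congr rfl fun y _ => ?_
    rw [map_mul]; ring
  simp only [h2]
  rw [sum_comm]
  push_cast
  refine sum_congr rfl fun x _ => ?_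
  rw [sum_comm]
  have h3 : ∀ y, ∑ i ∈ range q, (conj (a x) * (a y * e y)) * (conj (U x (i + 1)) * U y (i + 1)) =
      (conj (a x) * (a y * e y)) * ∑ i ∈ range q, conj (U x (i + 1)) * U y (i + 1) := by
    intro y; rw [mul_sum]
  simp only [h3]
  rw [sum_eq_single x]
  · simp only [Complex.normSq_eq_conj_mul_self]
    ring
  · intro y _ hy
    rw [h.orth x y (Ne.symm hy), mul_zero]
  · intro hx; exact absurd (mem_univ x) hx

end

/-- the counting lemma -/
theorem count_le {V : ℤ → ℝ} {q1 q2 : ℕ} (h1 : 1 ≤ q1) (h2 : 1 ≤ q2)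
    (hV : ∀ j : ℕ, j < q2 → V (1 + ((q1 + j : ℕ) : ℤ)) = V (1 + (j : ℤ)))
    {A B C : Type} [Fintype A] [Fintype B] [Fintype C]
    {eA : A → ℝ} {eB : B → ℝ} {eC : C → ℝ} {UA : A → ℕ → ℂ} {UB : B → ℕ → ℂ} {UC : C → ℕ → ℂ}
    (fA : Fam V q1 eA UA) (fB : Fam V q2 eB UB) (fC : Fam V (q1 + q2) eC UC)
    (s E : ℝ) (sA : ∀ x, s * (eA x - E) ≤ 0) (sB : ∀ x, s * (eB x - E) ≤ 0)
    (sC : ∀ x, 0 ≤ s * (eC x - E))
    (st : (∀ x, 0 < s * (eC x - E)) ∨ ((∀ x, s * (eA x - E) < 0) ∧ ∀ x, s * (eB x - E) < 0)) :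
    Fintype.card A + Fintype.card B + Fintype.card C ≤ q1 + q2 + 2 := by
  classical
  by_contra hcon
  rw [not_le] at hcon
  -- the linear system
  let pA : ((A ⊕ B) ⊕ C → ℂ) → A → ℂ := fun c x => c (Sum.inl (Sum.inl x))
  let pB : ((A ⊕ B) ⊕ C → ℂ) → B → ℂ := fun c x => c (Sum.inl (Sum.inr x))
  let pC : ((A ⊕ B) ⊕ C → ℂ) → C → ℂ := fun c x => c (Sum.inr x)
  let f : ((A ⊕ B) ⊕ C → ℂ) →ₗ[ℂ] (Fin (q1 + q2) ⊕ Fin 2 → ℂ) :=
    { toFun := fun c k => match k with
        | Sum.inl i => (if (i : ℕ) < q1 then cmb (pA c) UA (i + 1)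
            else cmb (pB c) UB ((i : ℕ) - q1 + 1)) - cmb (pC c) UC (i + 1)
        | Sum.inr i => if i = 0 then cmb (pA c) UA q1 else cmb (pB c) UB q2
      map_add' := fun c c' => by
        funext k
        rcases k with i | i
        · simp only [Pi.add_apply, cmb, pA, pB, pC, add_mul, sum_add_distrib]
          split_ifs <;> ring
        · simp only [Pi.add_apply, cmb, pA, pB, add_mul, sum_add_distrib]
          split_ifs <;> ring
      map_smul' := fun t c => by
        funext k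
        rcases k with i | i
        · simp only [Pi.smul_apply, smul_eq_mul, cmb, pA, pB, pC, RingHom.id_apply, mul_assoc,
            ← mul_sum]
          split_ifs <;> ring
        · simp only [Pi.smul_apply, smul_eq_mul, cmb, pA, pB, RingHom.id_apply, mul_assoc,
            ← mul_sum]
          split_ifs <;> ring }
  have hker : LinearMap.ker f ≠ ⊥ := by
    apply LinearMap.ker_ne_bot_of_finrank_lt
    rw [Module.finrank_fintype_fun_eq_card, Module.finrank_fintype_fun_eq_card, Fintype.card_sum,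
      Fintype.card_sum, Fintype.card_sum, Fintype.card_fin, Fintype.card_fin]
    exact hcon
  obtain ⟨c, hc, hc0⟩ := Submodule.exists_mem_ne_zero_of_ne_bot hker
  rw [LinearMap.mem_ker] at hc
  set a := pA c with ha
  set b := pB c with hb
  set g := pC c with hg
  set ψ1 := cmb a UA with hψ1
  set ψ2 := cmb b UB with hψ2
  set χ := cmb g UC with hχ
  have k1 : ∀ i, i < q1 → χ (i + 1) = ψ1 (i + 1) := by
    intro i hi
    have := congrFun hc (Sum.inl ⟨i, by omega⟩)
    simp only [f, LinearMap.coe_mk, AddHom.coe_mk, Pi.zero_apply, if_pos hi] at this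
    exact (sub_eq_zero.1 this).symm
  have k2 : ∀ i, i < q2 → χ (q1 + i + 1) = ψ2 (i + 1) := by
    intro i hi
    have := congrFun hc (Sum.inl ⟨q1 + i, by omega⟩)
    simp only [f, LinearMap.coe_mk, AddHom.coe_mk, Pi.zero_apply,
      if_neg (show ¬ q1 + i < q1 by omega), Nat.add_sub_cancel_left] at this
    exact (sub_eq_zero.1 this).symm
  have z1 : ψ1 q1 = 0 := by
    have := congrFun hc (Sum.inr 0)
    simpa [f] using this
  have z2 : ψ2 q2 = 0 := by
    have := congrFun hc (Sum.inr 1)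
    simpa [f] using this
  have z10 : ψ1 0 = 0 := by
    have := fA.z0 a
    rw [← hψ1, z1] at this
    exact (mul_eq_zero.1 this.symm).resolve_left Complex.I_ne_zero
  have z20 : ψ2 0 = 0 := by
    have := fB.z0 b
    rw [← hψ2, z2] at this
    exact (mul_eq_zero.1 this.symm).resolve_left Complex.I_ne_zero
  have x0 : χ 0 = 0 := by
    have h3 : χ (q1 + q2) = 0 := by
      obtain ⟨r, rfl⟩ : ∃ r, q2 = r + 1 := ⟨q2 - 1, by omega⟩
      have := k2 r (by omega)
      rw [show q1 + r + 1 = q1 + (r + 1) by ring] at this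
      rw [this, z2]
    have := fC.z0 g
    rw [← hχ, h3] at this
    exact (mul_eq_zero.1 this.symm).resolve_left Complex.I_ne_zero
  have xq : χ q1 = 0 := by
    obtain ⟨r, rfl⟩ : ∃ r, q1 = r + 1 := ⟨q1 - 1, by omega⟩
    rw [k1 r (by omega), z1]
  -- the forms
  have F : frm V (q1 + q2) χ = frm V q1 ψ1 + frm V q2 ψ2 := by
    unfold frm
    rw [sum_range_add]
    congr 1
    · refine sum_congr rfl fun i hi => ?_
      rw [mem_range] at hi
      rw [k1 i hi]
      rcases Nat.lt_or_ge (i + 1) q1 with h | h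
      · have e2 : χ (i + 2) = ψ1 (i + 2) := k1 (i + 1) h
        have e0 : χ i = ψ1 i := by
          rcases Nat.eq_zero_or_pos i with h0 | h0
          · rw [h0, x0, z10]
          · obtain ⟨r, rfl⟩ : ∃ r, i = r + 1 := ⟨i - 1, by omega⟩
            exact k1 r (by omega)
        rw [e2, e0]
      · have : i + 1 = q1 := by omega
        rw [this, z1, map_zero, zero_mul, zero_mul]
    · refine sum_congr rfl fun i hi => ?_
      rw [mem_range] at hi
      rw [k2 i hi, hV i hi]
      rcases Nat.lt_or_ge (i + 1) q2 with h | h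
      · have e2 : χ (q1 + i + 2) = ψ2 (i + 2) := k2 (i + 1) h
        have e0 : χ (q1 + i) = ψ2 i := by
          rcases Nat.eq_zero_or_pos i with h0 | h0
          · rw [h0, add_zero, xq, z20]
          · obtain ⟨r, rfl⟩ : ∃ r, i = r + 1 := ⟨i - 1, by omega⟩
            exact k2 r (by omega)
        rw [e2, e0]
      · have : i + 1 = q2 := by omega
        rw [this, z2, map_zero, zero_mul, zero_mul]
  have Nm : ∑ i ∈ range (q1 + q2), Complex.normSq (χ (i + 1)) =
      ∑ i ∈ range q1, Complex.normSq (ψ1 (i + 1)) + ∑ i ∈ range q2, Complex.normSq (ψ2 (i + 1)) := by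
    rw [sum_range_add]
    congr 1
    · exact sum_congr rfl fun i hi => by rw [k1 i (mem_range.1 hi)]
    · exact sum_congr rfl fun i hi => by rw [k2 i (mem_range.1 hi)]
  rw [hχ, hψ1, hψ2] at F Nm
  rw [fA.form, fB.form, fC.form] at F
  rw [fA.norm, fB.norm, fC.norm] at Nm
  have F' : ∑ x, eC x * (Complex.normSq (g x) * ∑ i ∈ range (q1 + q2),
        Complex.normSq (UC x (i + 1))) =
      ∑ x, eA x * (Complex.normSq (a x) * ∑ i ∈ range q1, Complex.normSq (UA x (i + 1))) +
      ∑ x, eB x * (Complex.normSq (b x) * ∑ i ∈ range q2, Complex.normSq (UB x (i + 1))) := by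
    exact_mod_cast F
  set wA : A → ℝ := fun x => Complex.normSq (a x) * ∑ i ∈ range q1, Complex.normSq (UA x (i + 1))
    with hwA
  set wB : B → ℝ := fun x => Complex.normSq (b x) * ∑ i ∈ range q2, Complex.normSq (UB x (i + 1))
    with hwB
  set wC : C → ℝ := fun x => Complex.normSq (g x) *
    ∑ i ∈ range (q1 + q2), Complex.normSq (UC x (i + 1)) with hwC
  have nA : ∀ x, 0 ≤ wA x := fun x => mul_nonneg (Complex.normSq_nonneg _)
    (sum_nonneg fun _ _ => Complex.normSq_nonneg _)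
  have nB : ∀ x, 0 ≤ wB x := fun x => mul_nonneg (Complex.normSq_nonneg _)
    (sum_nonneg fun _ _ => Complex.normSq_nonneg _)
  have nC : ∀ x, 0 ≤ wC x := fun x => mul_nonneg (Complex.normSq_nonneg _)
    (sum_nonneg fun _ _ => Complex.normSq_nonneg _)
  have key : ∑ x, s * (eC x - E) * wC x =
      ∑ x, s * (eA x - E) * wA x + ∑ x, s * (eB x - E) * wB x := by
    have e1 : ∀ (ι : Type) [Fintype ι] (e w : ι → ℝ), ∑ x, s * (e x - E) * w x =
        s * (∑ x, e x * w x) - s * E * ∑ x, w x := by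
      intro ι _ e w
      rw [mul_sum, mul_sum, ← sum_sub_distrib]
      exact sum_congr rfl fun x _ => by ring
    rw [e1, e1, e1]
    have F2 : ∑ x, eC x * wC x = ∑ x, eA x * wA x + ∑ x, eB x * wB x := F'
    have N2 : ∑ x, wC x = ∑ x, wA x + ∑ x, wB x := Nm
    rw [F2, N2]; ring
  have N2 : ∑ x, wC x = ∑ x, wA x + ∑ x, wB x := Nm
  have hC0 : 0 ≤ ∑ x, s * (eC x - E) * wC x :=
    sum_nonneg fun x _ => mul_nonneg (sC x) (nC x)
  have hA0 : ∑ x, s * (eA x - E) * wA x ≤ 0 :=
    sum_nonpos fun x _ => mul_nonpos_of_nonpos_of_nonneg (sA x) (nA x)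
  have hB0 : ∑ x, s * (eB x - E) * wB x ≤ 0 :=
    sum_nonpos fun x _ => mul_nonpos_of_nonpos_of_nonneg (sB x) (nB x)
  have zero_of : ∀ (ι : Type) [Fintype ι] (w v : ι → ℝ), (∀ x, 0 < v x) → (∀ x, 0 ≤ w x) →
      ∑ x, v x * w x = 0 → ∀ x, w x = 0 := by
    intro ι _ w v hv hw hs x
    have := (sum_eq_zero_iff_of_nonneg fun y _ => mul_nonneg (hv y).le (hw y)).1 hs x (mem_univ x)
    exact (mul_eq_zero.1 this).resolve_left (hv x).ne'
  have all : (∀ x, wA x = 0) ∧ (∀ x, wB x = 0) ∧ ∀ x, wC x = 0 := by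
    rcases st with h | ⟨h, h'⟩
    · have c1 : ∀ x, wC x = 0 := zero_of C wC _ h nC (by linarith)
      have c2 : ∑ x, wC x = 0 := sum_eq_zero fun x _ => c1 x
      have p1 : 0 ≤ ∑ x, wA x := sum_nonneg fun x _ => nA x
      have p2 : 0 ≤ ∑ x, wB x := sum_nonneg fun x _ => nB x
      exact ⟨fun x => (sum_eq_zero_iff_of_nonneg fun y _ => nA y).1 (by linarith) x (mem_univ x),
        fun x => (sum_eq_zero_iff_of_nonneg fun y _ => nB y).1 (by linarith) x (mem_univ x), c1⟩
    · have a1 : ∀ x, wA x = 0 := by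
        refine zero_of A wA (fun x => -(s * (eA x - E))) (fun x => by linarith [h x]) nA ?_
        have : ∑ x, -(s * (eA x - E)) * wA x = -∑ x, s * (eA x - E) * wA x := by
          rw [← sum_neg_distrib]; exact sum_congr rfl fun x _ => by ring
        rw [this]; linarith
      have b1 : ∀ x, wB x = 0 := by
        refine zero_of B wB (fun x => -(s * (eB x - E))) (fun x => by linarith [h' x]) nB ?_
        have : ∑ x, -(s * (eB x - E)) * wB x = -∑ x, s * (eB x - E) * wB x := by
          rw [← sum_neg_distrib]; exact sum_congr rfl fun x _ => by ring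
        rw [this]; linarith
      have c2 : ∑ x, wC x = 0 := by
        rw [N2, sum_eq_zero fun x _ => a1 x, sum_eq_zero fun x _ => b1 x, add_zero]
      exact ⟨a1, b1, fun x => (sum_eq_zero_iff_of_nonneg fun y _ => nC y).1 c2 x (mem_univ x)⟩
  obtain ⟨a1, b1, c1⟩ := all
  apply hc0
  funext k
  rcases k with (x | x) | x
  · have := a1 x
    rw [hwA] at this
    exact Complex.normSq_eq_zero.1 ((mul_eq_zero.1 this).resolve_right (bl_pos h1 (fA.bl x)).ne')
  · have := b1 x
    rw [hwB] at this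
    exact Complex.normSq_eq_zero.1 ((mul_eq_zero.1 this).resolve_right (bl_pos h2 (fB.bl x)).ne')
  · have := c1 x
    rw [hwC] at this
    exact Complex.normSq_eq_zero.1 ((mul_eq_zero.1 this).resolve_right
      (bl_pos (by omega) (fC.bl x)).ne')

/-- number of points at most `E` -/
noncomputable def cle (Z : Finset ℝ) (E : ℝ) : ℕ := (Z.filter (fun x => x ≤ E)).card

lemma cle_add (Z : Finset ℝ) (E : ℝ) : cle Z E + (Z.filter (fun x => E < x)).card = Z.card := by
  unfold cle
  rw [← Finset.card_filter_add_card_filter_not (s := Z) (fun x => x ≤ E)]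
  simp only [not_le]

/-- a full set of Bloch functions -/
lemma exists_fam {V : ℤ → ℝ} {q : ℕ} (Z : Finset ℝ) (hZ : ∀ x ∈ Z, (D V 1 q).eval x = 0) :
    ∃ U : Z → ℕ → ℂ, Fam V q (fun x : Z => (x : ℝ)) U := by
  have hex : ∀ x : Z, ∃ u : ℕ → ℂ, Bl V q x u := fun x => exists_bl V q x (hZ x x.2)
  choose U hU using hex
  exact ⟨U, hU, Subtype.coe_injective⟩

/-- **Almost additivity of the counting functions.** -/
theorem cle_almost {V : ℤ → ℝ} {q1 q2 : ℕ} (h1 : 1 ≤ q1) (h2 : 1 ≤ q2)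
    (hV : ∀ j : ℕ, j < q2 → V (1 + ((q1 + j : ℕ) : ℤ)) = V (1 + (j : ℤ)))
    {Z1 Z2 Z : Finset ℝ} (c1 : Z1.card = q1) (c2 : Z2.card = q2) (c : Z.card = q1 + q2)
    (z1 : ∀ x ∈ Z1, (D V 1 q1).eval x = 0) (z2 : ∀ x ∈ Z2, (D V 1 q2).eval x = 0)
    (z : ∀ x ∈ Z, (D V 1 (q1 + q2)).eval x = 0) (E : ℝ) :
    cle Z1 E + cle Z2 E ≤ cle Z E + 2 ∧ cle Z E ≤ cle Z1 E + cle Z2 E + 2 := by
  have a1 := cle_add Z1 E
  have a2 := cle_add Z2 E
  have a := cle_add Z E
  constructor
  · obtain ⟨UA, fA⟩ := exists_fam (V := V) (q := q1) (Z1.filter (fun x => x ≤ E))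
      (fun x hx => z1 x (mem_filter.1 hx).1)
    obtain ⟨UB, fB⟩ := exists_fam (V := V) (q := q2) (Z2.filter (fun x => x ≤ E))
      (fun x hx => z2 x (mem_filter.1 hx).1)
    obtain ⟨UC, fC⟩ := exists_fam (V := V) (q := q1 + q2) (Z.filter (fun x => E < x))
      (fun x hx => z x (mem_filter.1 hx).1)
    have := count_le h1 h2 hV fA fB fC 1 E
      (fun x => by have := (mem_filter.1 x.2).2; linarith)
      (fun x => by have := (mem_filter.1 x.2).2; linarith)
      (fun x => by have := (mem_filter.1 x.2).2; linarith)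
      (Or.inl fun x => by have := (mem_filter.1 x.2).2; linarith)
    simp only [Fintype.card_coe] at this
    unfold cle at *
    omega
  · obtain ⟨UA, fA⟩ := exists_fam (V := V) (q := q1) (Z1.filter (fun x => E < x))
      (fun x hx => z1 x (mem_filter.1 hx).1)
    obtain ⟨UB, fB⟩ := exists_fam (V := V) (q := q2) (Z2.filter (fun x => E < x))
      (fun x hx => z2 x (mem_filter.1 hx).1)
    obtain ⟨UC, fC⟩ := exists_fam (V := V) (q := q1 + q2) (Z.filter (fun x => x ≤ E))
      (fun x hx => z x (mem_filter.1 hx).1)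
    have := count_le h1 h2 hV fA fB fC (-1) E
      (fun x => by have := (mem_filter.1 x.2).2; linarith)
      (fun x => by have := (mem_filter.1 x.2).2; linarith)
      (fun x => by have := (mem_filter.1 x.2).2; linarith)
      (Or.inr ⟨fun x => by have := (mem_filter.1 x.2).2; linarith,
        fun x => by have := (mem_filter.1 x.2).2; linarith⟩)
    simp only [Fintype.card_coe] at this
    unfold cle at *
    omega

end Pool.Agent.N658.FD
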