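import Pool.Agent.W811.Dos.CP2

/-!
Transport of the dimension of a measure by a coupling, with countable decompositions.
-/

set_option autoImplicit false

open MeasureTheory Filter Topology Set
open scoped ENNReal NNReal

namespace Pool.Agent.N658.FD

open Pool.Agent.W811.Dos

lemma dim_fst_le {R : Set (ℝ × ℝ)} {S : Set ℝ} {r : ℝ≥0} (hr : 0 < r) {K : ℝ}
    (h : ∀ p ∈ R, ∀ p' ∈ R, |p.1 - p'.1| ≤ K * |p.2 - p'.2| ^ (r : ℝ)) :
    (r : ℝ≥0∞) * dimH (Prod.fst '' (R ∩ Prod.snd ⁻¹' S)) ≤ dimH S := by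
  classical
  set R' : Set (ℝ × ℝ) := R ∩ Prod.snd ⁻¹' S with hR'
  set A : Set ℝ := Prod.snd '' R' with hA
  set B : Set ℝ := Prod.fst '' R' with hB
  have hAS : A ⊆ S := by
    rintro _ ⟨p, hp, rfl⟩
    exact hp.2
  have hr' : (0 : ℝ) < r := by exact_mod_cast hr
  have hinj : ∀ p ∈ R', ∀ p' ∈ R', p.2 = p'.2 → p.1 = p'.1 := by
    intro p hp p' hp' he
    have := h p hp.1 p' hp'.1
    rw [he, sub_self, abs_zero, Real.zero_rpow hr'.ne', mul_zero] at this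
    have := abs_nonpos_iff.1 this
    linarith
  have hg : ∃ g : ℝ → ℝ, ∀ p ∈ R', g p.2 = p.1 := by
    have : ∀ y : ℝ, ∃ x : ℝ, ∀ p ∈ R', p.2 = y → p.1 = x := by
      intro y
      by_cases h : ∃ p ∈ R', p.2 = y
      · obtain ⟨p, hp, hpy⟩ := h
        exact ⟨p.1, fun p' hp' h' => hinj p' hp' p hp (h'.trans hpy.symm)⟩
      · exact ⟨0, fun p hp h' => absurd ⟨p, hp, h'⟩ h⟩
    choose g hg using this
    exact ⟨g, fun p hp => (hg p.2 p hp rfl).symm⟩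
  obtain ⟨g, hg⟩ := hg
  have hgA : g '' A = B := by
    rw [hA, hB, image_image]
    exact image_congr fun p hp => hg p hp
  have hh : HolderOnWith (Real.toNNReal K) r g A := by
    rintro _ ⟨p, hp, rfl⟩ _ ⟨p', hp', rfl⟩
    rw [hg p hp, hg p' hp', edist_dist, edist_dist, Real.dist_eq, Real.dist_eq,
      ENNReal.ofReal_rpow_of_nonneg (abs_nonneg _) (NNReal.coe_nonneg r)]
    have h1 := h p hp.1 p' hp'.1
    have h2 : |p.1 - p'.1| ≤ (Real.toNNReal K : ℝ) * |p.2 - p'.2| ^ (r : ℝ) :=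
      h1.trans (mul_le_mul_of_nonneg_right (Real.le_coe_toNNReal K) (by positivity))
    calc ENNReal.ofReal |p.1 - p'.1| ≤ ENNReal.ofReal ((Real.toNNReal K : ℝ) *
          |p.2 - p'.2| ^ (r : ℝ)) := ENNReal.ofReal_le_ofReal h2
      _ = _ := by
        rw [ENNReal.ofReal_mul (by positivity), ENNReal.ofReal_coe_nnreal]
  have h2 := hh.dimH_image_le hr
  rw [hgA] at h2
  have hr0 : (r : ℝ≥0∞) ≠ 0 := by simpa using hr.ne'
  have h3 := (ENNReal.le_div_iff_mul_le (Or.inl hr0) (Or.inl ENNReal.coe_ne_top)).1 h2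
  rw [mul_comm]
  exact h3.trans (dimH_mono hAS)

theorem transport {μ ν : Measure ℝ} {π : Measure (ℝ × ℝ)} {C : ℝ}
    (hμ : π.map Prod.fst = μ)
    (hν : ∀ S : Set ℝ, MeasurableSet S → π (Prod.snd ⁻¹' S) ≤ ENNReal.ofReal C * ν S)
    (hR : ∀ P : ℕ, 2 ≤ P → ∃ R : ℕ → Set (ℝ × ℝ), π (⋃ k, R k)ᶜ = 0 ∧ ∀ k, ∃ K : ℝ,
      ∀ p ∈ R k, ∀ p' ∈ R k, |p.1 - p'.1| ≤ K * |p.2 - p'.2| ^ (1 - 1 / (P : ℝ))) :
    upDim μ ≤ upDim ν := by
  classical
  have hR' : ∀ i : ℕ, ∃ R : ℕ → Set (ℝ × ℝ), π (⋃ k, R k)ᶜ = 0 ∧ ∀ k, ∃ K : ℝ,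
      ∀ p ∈ R k, ∀ p' ∈ R k, |p.1 - p'.1| ≤ K * |p.2 - p'.2| ^ (1 - 1 / ((i + 2 : ℕ) : ℝ)) :=
    fun i => hR (i + 2) (by omega)
  choose R hR0 hRH using hR'
  refine le_iInf fun S => le_iInf fun hS => le_iInf fun hS0 => ?_
  set G : Set (ℝ × ℝ) := (⋂ i, ⋃ k, R i k) ∩ Prod.snd ⁻¹' S with hG
  set B : Set ℝ := Prod.fst '' G with hB
  -- the exponents
  set ρ : ℕ → ℝ≥0 := fun i => ⟨1 - 1 / ((i + 2 : ℕ) : ℝ), by
    have : (1 : ℝ) ≤ ((i + 2 : ℕ) : ℝ) := by push_cast; linarith [(Nat.cast_nonneg i : (0:ℝ) ≤ i)]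
    have := div_le_one_of_le₀ this (by positivity)
    linarith⟩ with hρ
  have hρ0 : ∀ i, 0 < ρ i := by
    intro i
    have h1 : (1 : ℝ) < ((i + 2 : ℕ) : ℝ) := by
      push_cast; linarith [(Nat.cast_nonneg i : (0:ℝ) ≤ i)]
    have h2 : 1 / ((i + 2 : ℕ) : ℝ) < 1 := by rw [div_lt_one (by linarith)]; exact h1
    have : (0 : ℝ) < (ρ i : ℝ) := by
      show (0 : ℝ) < 1 - 1 / ((i + 2 : ℕ) : ℝ)
      linarith
    exact_mod_cast this
  have hdim : dimH B ≤ dimH S := by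
    have h1 : ∀ i, (ρ i : ℝ≥0∞) * dimH B ≤ dimH S := by
      intro i
      have hsub : B ⊆ ⋃ k, Prod.fst '' (R i k ∩ Prod.snd ⁻¹' S) := by
        rintro _ ⟨p, ⟨hp1, hp2⟩, rfl⟩
        obtain ⟨k, hk⟩ := mem_iUnion.1 (mem_iInter.1 hp1 i)
        exact mem_iUnion.2 ⟨k, p, ⟨hk, hp2⟩, rfl⟩
      have h2 := dimH_mono hsub
      rw [dimH_iUnion] at h2
      have h3 : (ρ i : ℝ≥0∞) * ⨆ k, dimH (Prod.fst '' (R i k ∩ Prod.snd ⁻¹' S)) ≤ dimH S := by
        rw [ENNReal.mul_iSup]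
        refine iSup_le fun k => ?_
        obtain ⟨K, hK⟩ := hRH i k
        exact dim_fst_le (hρ0 i) hK
      exact (mul_le_mul_right h2 _).trans h3
    have h2 : Tendsto (fun i : ℕ => (ρ i : ℝ≥0∞) * dimH B) atTop (𝓝 (1 * dimH B)) := by
      apply ENNReal.Tendsto.mul_const _ (Or.inl one_ne_zero)
      rw [← ENNReal.coe_one, ENNReal.tendsto_coe, ← NNReal.tendsto_coe]
      have h3 : Tendsto (fun i : ℕ => 1 - 1 / ((i : ℝ) + 1)) atTop (𝓝 (1 - 0)) :=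
        tendsto_one_div_add_atTop_nhds_zero_nat.const_sub 1
      rw [sub_zero] at h3
      have h4 := h3.comp (tendsto_add_atTop_nat 1)
      refine h4.congr fun i => ?_
      show 1 - 1 / (((i + 1 : ℕ) : ℝ) + 1) = 1 - 1 / ((i + 2 : ℕ) : ℝ)
      push_cast
      ring_nf
    rw [one_mul] at h2
    exact le_of_tendsto' h2 h1
  refine le_trans ?_ hdim
  -- a measurable hull
  refine le_of_forall_gt_imp_ge_of_dense fun s hs => ?_
  rcases eq_or_ne s ⊤ with rfl | hst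
  · exact le_top
  lift s to ℝ≥0 using hst
  have hz : μH[(s : ℝ)] B = 0 := hausdorffMeasure_of_dimH_lt hs
  set t := toMeasurable (μH[(s : ℝ)]) B with ht
  have htm : MeasurableSet t := measurableSet_toMeasurable _ _
  have hBt : B ⊆ t := subset_toMeasurable _ _
  have htz : μH[(s : ℝ)] t = 0 := by rw [ht, measure_toMeasurable, hz]
  have hdt : dimH t ≤ s := by
    apply dimH_le_of_hausdorffMeasure_ne_top
    rw [htz]
    exact ENNReal.zero_ne_top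
  have hμt : μ tᶜ = 0 := by
    rw [← hμ, Measure.map_apply measurable_fst htm.compl]
    have hsub : Prod.fst ⁻¹' tᶜ ⊆ (⋃ i, (⋃ k, R i k)ᶜ) ∪ (Prod.snd ⁻¹' Sᶜ : Set (ℝ × ℝ)) := by
      intro p hp
      by_contra hcon
      rw [mem_union, not_or, mem_iUnion, not_exists] at hcon
      have h2 : p.2 ∈ S := by
        by_contra h3
        exact hcon.2 h3
      refine hp (hBt ⟨p, ⟨?_, h2⟩, rfl⟩)
      rw [mem_iInter]
      intro i
      by_contra h3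
      exact hcon.1 i h3
    refine measure_mono_null hsub ?_
    rw [measure_union_null_iff]
    refine ⟨measure_iUnion_null hR0, ?_⟩
    have := hν Sᶜ hS.compl
    rw [hS0, mul_zero] at this
    exact le_antisymm this zero_le
  calc upDim μ ≤ dimH t := iInf_le_of_le t (iInf_le_of_le htm (iInf_le_of_le hμt le_rfl))
    _ ≤ s := hdt

end Pool.Agent.N658.FD
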