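import Pool.Agent.N658.FD.Hold2
import Pool.Agent.N658.FD.Dim

/-!
The dimension of the density of states measure does not increase with the coupling.
-/

set_option autoImplicit false

open MeasureTheory Filter Topology Set ProbabilityTheory
open scoped ENNReal NNReal

namespace Pool.Agent.N658.FD

open Pool.Agent.W811.Stu Pool.Agent.W811.Dos Pool.Agent.W745.Fib

/-- the rank of a point of a finite set -/
lemma cle_rank (Z : Finset ℝ) {k : ℕ} (h : Z.card = k) (i : Fin k) :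
    cle Z (Z.orderIsoOfFin h i : ℝ) = i + 1 := by
  classical
  unfold cle
  have himg : Z.filter (fun x => x ≤ (Z.orderIsoOfFin h i : ℝ)) =
      (Finset.Iic i).image (fun j => (Z.orderIsoOfFin h j : ℝ)) := by
    ext x
    rw [Finset.mem_filter, Finset.mem_image]
    constructor
    · rintro ⟨hx, hle⟩
      refine ⟨(Z.orderIsoOfFin h).symm ⟨x, hx⟩, ?_, by simp⟩
      rw [Finset.mem_Iic, ← (Z.orderIsoOfFin h).le_iff_le, OrderIso.apply_symm_apply]
      exact hle
    · rintro ⟨j, hj, rfl⟩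
      rw [Finset.mem_Iic] at hj
      exact ⟨(Z.orderIsoOfFin h j).2, (Z.orderIsoOfFin h).le_iff_le.2 hj⟩
  rw [himg, Finset.card_image_of_injective, Fin.card_Iic]
  intro a b hab
  exact (Z.orderIsoOfFin h).injective (Subtype.ext hab)

/-- the order preserving map between two finite sets with the same number of elements -/
noncomputable def om (Z W : Finset ℝ) {k : ℕ} (hZ : Z.card = k) (hW : W.card = k) (x : ℝ) : ℝ := by
  classical exact if h : x ∈ Z then
    (W.orderIsoOfFin hW ((Z.orderIsoOfFin hZ).symm ⟨x, h⟩) : ℝ) else 0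

lemma om_mem {Z W : Finset ℝ} {k : ℕ} (hZ : Z.card = k) (hW : W.card = k) {x : ℝ} (hx : x ∈ Z) :
    om Z W hZ hW x ∈ W ∧ cle W (om Z W hZ hW x) = cle Z x := by
  unfold om
  rw [dif_pos hx]
  refine ⟨(W.orderIsoOfFin hW _).2, ?_⟩
  rw [cle_rank]
  have h := cle_rank Z hZ ((Z.orderIsoOfFin hZ).symm ⟨x, hx⟩)
  rw [OrderIso.apply_symm_apply] at h
  exact h.symm

lemma om_inj {Z W : Finset ℝ} {k : ℕ} (hZ : Z.card = k) (hW : W.card = k) :
    InjOn (om Z W hZ hW) Z := by
  intro x hx y hy hxy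
  have hx' : x ∈ Z := hx
  have hy' : y ∈ Z := hy
  unfold om at hxy
  rw [dif_pos hx', dif_pos hy'] at hxy
  have h1 := (W.orderIsoOfFin hW).injective (Subtype.ext hxy)
  have h2 := (Z.orderIsoOfFin hZ).symm.injective h1
  exact congrArg Subtype.val h2

lemma lim_shift {lam : ℝ} (hl : 0 < lam) : Lim (fun m => Zr lam (m + 2)) (mu lam) := by
  intro g hg
  exact ((mu_spec hl).2.1 g hg).comp (tendsto_add_atTop_nat 1)

lemma sp_of_lim {lam : ℝ} (hl : 0 < lam) {x : ℝ}
    (h : ∀ ε > 0, ∀ N : ℕ, ∃ m ≥ N, ∃ t ∈ Zr lam (m + 2), |t - x| < ε) : x ∈ Sp lam one := by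
  refine tLs lam hl one (fun _ => le_rfl) x fun ε hε N => ?_
  obtain ⟨m, hm, t, ht, htx⟩ := h ε hε N
  refine ⟨m + 1, by omega, t, htx, ?_⟩
  rw [orb_y, show m + 1 + 1 = m + 2 by ring, (mem_Zr hl (by omega) t).1 ht, abs_zero]
  norm_num

/-- **The dimension does not increase.** -/
theorem mono {a b : ℝ} (ha : 0 < a) (hab : a ≤ b) : upDim (mu b) ≤ upDim (mu a) := by
  have hb : 0 < b := lt_of_lt_of_le ha hab
  obtain ⟨κa, Ca, Ga⟩ := exists_geo ha
  obtain ⟨κb, Cb, Gb⟩ := exists_geo hb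
  set Z : ℕ → Finset ℝ := fun m => Zr b (m + 2) with hZ
  set W : ℕ → Finset ℝ := fun m => Zr a (m + 2) with hW
  have cZ : ∀ m, (Z m).card = Nat.fib (m + 2) := fun m => card_Zr hb (by omega)
  have cW : ∀ m, (W m).card = Nat.fib (m + 2) := fun m => card_Zr ha (by omega)
  set ι : ℕ → ℝ → ℝ := fun m => om (Z m) (W m) (cZ m) (cW m) with hι
  obtain ⟨π, hπ, hπ1, hπ2, hπ3⟩ := cp1 Z W ι (mu b) (mu a) 1 (2 + b) (-(2 + a)) (2 + a)
    inferInstance inferInstance zero_le_one
    (fun m => by rw [← Finset.card_pos, cZ]; exact Nat.fib_pos.2 (by omega))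
    (fun m x hx => Zr_le hb (by omega) hx)
    (fun m => om_inj _ _)
    (fun m x hx => ⟨(om_mem (cZ m) (cW m) hx).1,
      abs_le.1 (Zr_le ha (by omega) (om_mem (cZ m) (cW m) hx).1)⟩)
    (fun m => by rw [cZ, cW, one_mul])
    (lim_shift hb) (lim_shift ha)
  -- properties of limit pairs
  have hLP : ∀ x y, LP Z ι x y → x ∈ Sp b one ∧ y ∈ Sp a one ∧ ids b x = ids a y := by
    intro x y h
    refine ⟨sp_of_lim hb fun ε hε N => ?_, sp_of_lim ha fun ε hε N => ?_, ?_⟩
    · obtain ⟨m, hm, t, ht, h1, -⟩ := h ε hε N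
      exact ⟨m, hm, t, ht, h1⟩
    · obtain ⟨m, hm, t, ht, -, h2⟩ := h ε hε N
      exact ⟨m, hm, ι m t, (om_mem (cZ m) (cW m) ht).1, h2⟩
    · by_contra hne
      have hpos : 0 < |ids b x - ids a y| := abs_pos.2 (sub_ne_zero.2 hne)
      set η := |ids b x - ids a y| / 3 with hη
      have hη0 : 0 < η := by positivity
      obtain ⟨ε1, hε1, c1⟩ := Metric.continuousAt_iff.1 ((ids_cont hb).continuousAt (x := x)) η hη0
      obtain ⟨ε2, hε2, c2⟩ := Metric.continuousAt_iff.1 ((ids_cont ha).continuousAt (x := y)) η hη0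
      obtain ⟨N, hN⟩ := exists_nat_gt (18 / η)
      obtain ⟨m, hm, t, ht, h1, h2⟩ := h (min ε1 ε2) (lt_min hε1 hε2) (N + 5)
      have d1 := c1 (x := t) (by rw [Real.dist_eq]; exact h1.trans_le (min_le_left _ _))
      have d2 := c2 (x := ι m t) (by rw [Real.dist_eq]; exact h2.trans_le (min_le_right _ _))
      rw [Real.dist_eq] at d1 d2
      have e1 := cle_ids hb (n := m + 2) (by omega) t
      have e2 := cle_ids ha (n := m + 2) (by omega) (ι m t)
      have e3 : cle (Zr a (m + 2)) (ι m t) = cle (Zr b (m + 2)) t := (om_mem (cZ m) (cW m) ht).2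
      rw [e3] at e2
      have hF : (N : ℝ) < Nat.fib (m + 2) := by
        have : m + 2 ≤ Nat.fib (m + 2) := Nat.le_fib_self (by omega)
        have h5 : N < Nat.fib (m + 2) := by omega
        exact_mod_cast h5
      have hFη : 18 < Nat.fib (m + 2) * η := by
        rw [div_lt_iff₀ hη0] at hN
        nlinarith
      have e4 : |(Nat.fib (m + 2) : ℝ) * (ids b t - ids a (ι m t))| ≤ 18 := by
        rw [abs_le] at e1 e2 ⊢
        constructor <;> nlinarith [e1.1, e1.2, e2.1, e2.2]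
      have hF0 : (0 : ℝ) < Nat.fib (m + 2) := lt_of_le_of_lt (Nat.cast_nonneg N) hF
      rw [abs_mul, abs_of_pos hF0] at e4
      have e5 : |ids b t - ids a (ι m t)| < η := by
        by_contra hcon
        push Not at hcon
        have := mul_le_mul_of_nonneg_left hcon hF0.le
        linarith
      have e6 : |ids b x - ids a y| < 3 * η := by
        rw [abs_lt] at d1 d2 e5 ⊢
        constructor <;> linarith [d1.1, d1.2, d2.1, d2.2, e5.1, e5.2]
      rw [hη] at e6
      linarith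
  refine transport hπ1 hπ2 fun P hP => ?_
  obtain ⟨M, hM, hH⟩ := holder ha hab Ga Gb hP
  refine ⟨fun k => RR a b κb M k, ?_, hH⟩
  have h1 : ∀ᵐ p ∂π, ∃ k, ∀ n, k ≤ n → p.1 ∉ Bn b κb M n := by
    have := ae_good hb (by linarith [Gb.k1] : (0:ℝ) ≤ κb) Gb.kc hM
    rw [← hπ1] at this
    exact ae_of_ae_map measurable_fst.aemeasurable this
  have h2 : ∀ᵐ p ∂π, LP Z ι p.1 p.2 := by
    rw [ae_iff]
    refine measure_mono_null ?_ hπ3
    intro p hp hcon
    exact hp hcon.1
  have h3 : ∀ᵐ p ∂π, p ∈ ⋃ k, RR a b κb M k := by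
    filter_upwards [h1, h2] with p ⟨k, hk⟩ hL
    obtain ⟨g1, g2, g3⟩ := hLP p.1 p.2 hL
    exact mem_iUnion.2 ⟨k, g1, g2, g3, hk⟩
  exact h3

end Pool.Agent.N658.FD
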