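import Pool.Agent.W753.FM.Bd
import Pool.Agent.W811.Dos.Final

/-!
Geometry of the bands for a fixed coupling.
-/

set_option autoImplicit false

open Set Filter Topology

namespace Pool.Agent.N658.FD

open Pool.Agent.W811.Stu Pool.Agent.W745.Fib

/-- what is used about the bands at a fixed coupling -/
structure Geo (l κ C : ℝ) : Prop where
  k1 : 1 < κ
  kc : κ < cc (l / 2)
  C1 : 1 ≤ C
  dist : ∀ n, 1 ≤ n → ∀ E E', (∀ e ∈ uIcc E E', |tr l n e| ≤ κ) →
    |dE l n E| ≤ C * |dE l n E'| ∧ |E - E'| * |dE l n E| ≤ C ∧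
      |tr l n E - tr l n E'| ≤ C * (|E - E'| * |dE l n E|)
  inside : ∀ n, 1 ≤ n → ∀ y E, |tr l n y| ≤ 1 → C * (|E - y| * |dE l n y|) ≤ 1 →
    ∀ e ∈ uIcc y E, |tr l n e| ≤ κ
  next : ∀ n, 3 ≤ n → ∀ y, y ∈ Sp l one → |tr l n y| ≤ 1 →
    ∃ n', n < n' ∧ |tr l n' y| ≤ 1 ∧ |dE l n' y| ≤ C * |dE l n y|
  grow : ∀ n, 3 ≤ n → ∀ y, |tr l n y| ≤ 1 → 2 ^ (n / 2) ≤ C * |dE l n y|
  chain : ∀ k n, 3 ≤ k → k ≤ n → ∀ e, |tr l k e| ≤ κ → |tr l n e| ≤ 1 →
    |dE l n e| ≤ C ^ (n - k) * |dE l k e|

lemma sp_or {l y : ℝ} (hy : y ∈ Sp l one) {n : ℕ} (hn : 1 ≤ n) :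
    |tr l n y| ≤ 1 ∨ |tr l (n + 1) y| ≤ 1 := by
  have h := hy (n - 1)
  rw [orb_y, orb_y, show n - 1 + 1 = n by omega] at h
  exact h

theorem exists_geo {l : ℝ} (hl : 0 < l) : ∃ κ C, Geo l κ C := by
  have hl0 : l ≠ 0 := hl.ne'
  have hcc : 1 < cc (l / 2) := one_lt_cc (by positivity)
  set κ : ℝ := (1 + cc (l / 2)) / 2 with hκ
  have hκ1 : 1 < κ := by rw [hκ]; linarith
  have hκ2 : κ < cc (l / 2) := by rw [hκ]; linarith
  have hκ0 : 0 < κ := by linarith
  obtain ⟨D1, hD1, hdi⟩ := Pool.Agent.W753.FM.sdi l hl0 κ hκ0 hκ2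
  obtain ⟨D2, hD2, hrt⟩ := Pool.Agent.W753.FM.srt l hl0 κ hκ0.le hκ2
  obtain ⟨D3, hD3, hbd⟩ := Pool.Agent.W753.FM.sbd l hl0
  obtain ⟨c0, hc0, hlb⟩ := tLB (l / 2) κ (by positivity) hκ0.le hκ2
  set S : ℝ := 2 * D2 * (1 + D3) * κ + 2 * D3 + D2 with hS
  have hS0 : 0 ≤ S := by positivity
  set C : ℝ := D1 + D1 / (κ - 1) + D2 * (1 + D3) + S + 2 * l / c0 with hC
  have hk : 0 < κ - 1 := by linarith
  have q1 : 0 ≤ D1 / (κ - 1) := by positivity
  have q2 : 0 ≤ D2 * (1 + D3) := by positivity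
  have q3 : 0 ≤ 2 * l / c0 := by positivity
  have hCD1 : D1 ≤ C := by rw [hC]; linarith
  have hC1 : 1 ≤ C := hD1.trans hCD1
  -- one step
  have step : ∀ n, 3 ≤ n → ∀ y, |tr l n y| ≤ κ → |tr l (n - 1) y| ≤ D3 → |tr l (n + 1) y| ≤ D3 →
      |dE l (n + 1) y| ≤ C * |dE l n y| ∧ |dE l (n + 2) y| ≤ C * |dE l n y| := by
    intro n hn y h1 h2 h3
    obtain ⟨r1, r2⟩ := hrt n hn y h1
    have hd := abs_nonneg (dE l n y)
    have e1 : |dE l (n + 1) y| ≤ D2 * (1 + D3) * |dE l n y| := by
      refine r2.trans (mul_le_mul_of_nonneg_right ?_ hd)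
      exact mul_le_mul_of_nonneg_left (by linarith) (by linarith)
    constructor
    · refine e1.trans (mul_le_mul_of_nonneg_right ?_ hd)
      rw [hC]; linarith
    · obtain ⟨m, rfl⟩ : ∃ m, n = m + 1 := ⟨n - 1, by omega⟩
      have hr := dE_rec l m y
      rw [show m + 1 + 2 = m + 3 by ring, hr]
      have e0 : m + 1 - 1 = m := by omega
      rw [e0] at r1
      have a1 : |2 * dE l (m + 2) y * tr l (m + 1) y| ≤ 2 * D2 * (1 + D3) * κ * |dE l (m + 1) y| := by
        rw [abs_mul, abs_mul, abs_two]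
        have := mul_le_mul e1 h1 (abs_nonneg _) (by positivity)
        rw [show m + 1 + 1 = m + 2 by ring] at this
        nlinarith
      have a2 : |2 * tr l (m + 2) y * dE l (m + 1) y| ≤ 2 * D3 * |dE l (m + 1) y| := by
        rw [abs_mul, abs_mul, abs_two]
        have := mul_le_mul_of_nonneg_right h3 hd
        rw [show m + 1 + 1 = m + 2 by ring] at this
        linarith
      have a3 := abs_sub (2 * dE l (m + 2) y * tr l (m + 1) y + 2 * tr l (m + 2) y * dE l (m + 1) y)
        (dE l m y)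
      have a4 := abs_add_le (2 * dE l (m + 2) y * tr l (m + 1) y)
        (2 * tr l (m + 2) y * dE l (m + 1) y)
      have a5 : S * |dE l (m + 1) y| ≤ C * |dE l (m + 1) y| := by
        apply mul_le_mul_of_nonneg_right _ hd
        rw [hC]; linarith
      have a6 : S * |dE l (m + 1) y| = 2 * D2 * (1 + D3) * κ * |dE l (m + 1) y| +
        2 * D3 * |dE l (m + 1) y| + D2 * |dE l (m + 1) y| := by rw [hS]; ring
      linarith
  refine ⟨κ, C, hκ1, hκ2, hC1, ?_, ?_, ?_, ?_, ?_⟩
  · intro n hn E E' h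
    obtain ⟨h1, h2, h3⟩ := (hdi n hn).1 E E' h
    refine ⟨h1.trans (mul_le_mul_of_nonneg_right hCD1 (abs_nonneg _)), h2.trans hCD1,
      h3.trans (mul_le_mul_of_nonneg_right hCD1 (by positivity))⟩
  · intro n hn y E hy hE
    obtain ⟨u, v, huy, hyv, huv, hband, hends⟩ := (hdi n hn).2 y (hy.trans hκ1.le)
    have hyy := abs_le.1 hy
    -- distances to the ends
    have far : ∀ w ∈ Icc u v, |tr l n w| = κ → |E - y| ≤ |w - y| := by
      intro w hw hwk
      have hsub : uIcc y w ⊆ Icc u v := uIcc_subset_Icc ⟨huy, hyv⟩ hw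
      have h3 := ((hdi n hn).1 y w (fun e he => hband e (hsub he))).2.2
      have h4 : κ - 1 ≤ |tr l n y - tr l n w| := by
        have := abs_sub_abs_le_abs_sub (tr l n w) (tr l n y)
        rw [abs_sub_comm] at this
        linarith
      have h5 : κ - 1 ≤ D1 * (|y - w| * |dE l n y|) := h4.trans h3
      by_contra hcon
      push Not at hcon
      have hdpos : 0 < |dE l n y| := by
        rcases eq_or_lt_of_le (abs_nonneg (dE l n y)) with h0 | h0
        · rw [← h0, mul_zero, mul_zero] at h5; linarith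
        · exact h0
      have h6 : D1 * (|y - w| * |dE l n y|) < D1 * (|E - y| * |dE l n y|) := by
        apply mul_lt_mul_of_pos_left _ (by linarith)
        apply mul_lt_mul_of_pos_right _ hdpos
        rw [abs_sub_comm]; exact hcon
      have h7 : D1 / (κ - 1) * (|E - y| * |dE l n y|) ≤ 1 := by
        refine le_trans (mul_le_mul_of_nonneg_right ?_ (by positivity)) hE
        rw [hC]; linarith
      have h8 : D1 * (|E - y| * |dE l n y|) ≤ κ - 1 := by
        have e : D1 / (κ - 1) * (|E - y| * |dE l n y|) =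
          D1 * (|E - y| * |dE l n y|) / (κ - 1) := by ring
        rw [e, div_le_one hk] at h7
        exact h7
      linarith
    have hu : |tr l n u| = κ := by
      rcases hends with ⟨h, -⟩ | ⟨h, -⟩
      · rw [h, abs_neg, abs_of_pos hκ0]
      · rw [h, abs_of_pos hκ0]
    have hv : |tr l n v| = κ := by
      rcases hends with ⟨-, h⟩ | ⟨-, h⟩
      · rw [h, abs_of_pos hκ0]
      · rw [h, abs_neg, abs_of_pos hκ0]
    have f1 := far u ⟨le_rfl, huv.le⟩ hu
    have f2 := far v ⟨huv.le, le_rfl⟩ hv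
    rw [abs_of_nonpos (by linarith : u - y ≤ 0)] at f1
    rw [abs_of_nonneg (by linarith : 0 ≤ v - y)] at f2
    have g1 := neg_abs_le (E - y)
    have g2 := le_abs_self (E - y)
    intro e he
    exact hband e (uIcc_subset_Icc ⟨huy, hyv⟩ ⟨by linarith, by linarith⟩ he)
  · intro n hn y hy h1
    have hbdd : ∀ j, |tr l j y| ≤ D3 := by
      intro j
      rcases sp_or hy (n := j + 1) (by omega) with h | h
      · exact (hbd (j + 1) (by omega) y h).1 j (by omega)
      · exact (hbd (j + 2) (by omega) y h).1 j (by omega)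
    obtain ⟨s1, s2⟩ := step n hn y (h1.trans hκ1.le) (hbdd _) (hbdd _)
    rcases sp_or hy (n := n + 1) (by omega) with h | h
    · exact ⟨n + 1, by omega, h, s1⟩
    · exact ⟨n + 2, by omega, h, s2⟩
  · intro n hn y h1
    obtain ⟨m, rfl⟩ : ∃ m, n = m + 1 := ⟨n - 1, by omega⟩
    have h2 := hlb one Pool.Agent.W753.FM.one_pos' m (by omega) (lin l y) (onS_lin l y)
      (by
        have : (lin l y).z = 1 := rfl
        rw [this, abs_one]) (by rw [orb_y]; exact h1.trans hκ1.le)
    rw [Vy_eq hl0, abs_mul, abs_neg, abs_of_pos hl] at h2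
    have h3 : (2 : ℝ) ^ ((m + 1) / 2) ≤ 2 * 2 ^ (m / 2) := by
      rw [← pow_succ']
      exact pow_le_pow_right₀ (by norm_num) (by omega)
    have h4 : 2 * l / c0 * |dE l (m + 1) y| ≤ C * |dE l (m + 1) y| := by
      apply mul_le_mul_of_nonneg_right _ (abs_nonneg _)
      rw [hC]; linarith
    refine h3.trans (le_trans ?_ h4)
    rw [div_mul_eq_mul_div, le_div_iff₀ hc0]
    nlinarith
  · intro k n hk hkn e h1 h2
    obtain ⟨b1, b2⟩ := hbd n (by omega) e h2
    -- induction on the distance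
    have key : ∀ d k, 3 ≤ k → k ≤ n → n - k ≤ d → |tr l k e| ≤ κ →
        |dE l n e| ≤ C ^ (n - k) * |dE l k e| := by
      intro d
      induction d with
      | zero =>
        intro k hk hkn hd _
        have : k = n := by omega
        rw [this, Nat.sub_self, pow_zero, one_mul]
      | succ d ih =>
        intro k hk hkn hd htk
        rcases Nat.eq_or_lt_of_le hkn with h | h
        · rw [h, Nat.sub_self, pow_zero, one_mul]
        · obtain ⟨s1, s2⟩ := step k hk e htk (b1 _ (by omega)) (b1 _ (by omega))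
          by_cases h5 : |tr l (k + 1) e| ≤ 1
          · have := ih (k + 1) (by omega) (by omega) (by omega) (h5.trans hκ1.le)
            refine this.trans ?_
            have e1 : n - k = (n - (k + 1)) + 1 := by omega
            rw [e1, pow_succ, mul_assoc]
            exact mul_le_mul_of_nonneg_left s1 (by positivity)
          · have hk1 : k + 1 < n := by
              rcases Nat.eq_or_lt_of_le (Nat.succ_le_of_lt h) with h6 | h6
              · exfalso; apply h5
                have : k + 1 = n := h6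
                rw [this]; exact h2
              · exact h6
            have h6 : |tr l (k + 2) e| ≤ 1 := (b2 (k + 1) hk1).resolve_left h5
            have := ih (k + 2) (by omega) (by omega) (by omega) (h6.trans hκ1.le)
            refine this.trans ?_
            have e1 : n - k = (n - (k + 2)) + 2 := by omega
            rw [e1, pow_add, mul_assoc]
            refine mul_le_mul_of_nonneg_left ?_ (by positivity)
            refine s2.trans (mul_le_mul_of_nonneg_right ?_ (abs_nonneg _))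
            nlinarith
    exact key (n - k) k hk hkn le_rfl h1

end Pool.Agent.N658.FD
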