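import Pool.Agent.N658.FD.Ids
import Pool.Agent.N658.FD.Geo
import Pool.Agent.N658.FD.Bnds

/-!
The correspondence of energies with the same integrated density of states is almost Lipschitz.
-/

set_option autoImplicit false

open MeasureTheory Filter Topology Set ProbabilityTheory

namespace Pool.Agent.N658.FD

open Pool.Agent.W811.Stu Pool.Agent.W745.Fib Pool.Agent.Y662.FIB

lemma sp_bdd {l : ℝ} (hl : 0 < l) {y : ℝ} (hy : y ∈ Sp l one) : |y| ≤ 2 + l := by
  have h := sp_or hy (n := 1) le_rfl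
  rw [tr_one, show 1 + 1 = 2 by rfl, tr_two] at h
  rw [abs_le]
  rcases h with h | h <;> rw [abs_le] at h <;> constructor <;> linarith [h.1, h.2]

/-- selection of a level -/
lemma sel {l κ C : ℝ} (hG : Geo l κ C) {y : ℝ} (hy : y ∈ Sp l one) {n1 : ℕ} (hn1 : 3 ≤ n1)
    {D : ℝ} (hD : 0 < D) (h1 : ∀ n, n1 ≤ n → n ≤ n1 + 1 → C * (D * |dE l n y|) ≤ 1) :
    ∃ n, n1 ≤ n ∧ |tr l n y| ≤ 1 ∧ C * (D * |dE l n y|) ≤ 1 ∧ 1 < C * (D * (C * |dE l n y|)) := by
  have hC0 : 0 < C := lt_of_lt_of_le one_pos hG.C1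
  set S : Set ℕ := {n | n1 ≤ n ∧ |tr l n y| ≤ 1 ∧ C * (D * |dE l n y|) ≤ 1} with hS
  have hne : S.Nonempty := by
    rcases sp_or hy (n := n1) (by omega) with h | h
    · exact ⟨n1, le_rfl, h, h1 n1 le_rfl (by omega)⟩
    · exact ⟨n1 + 1, by omega, h, h1 (n1 + 1) (by omega) le_rfl⟩
  have hbdd : BddAbove S := by
    obtain ⟨N, hN⟩ := pow_unbounded_of_one_lt (1 / D) (one_lt_two)
    refine ⟨2 * N + 1, fun n hn => ?_⟩
    by_contra hcon
    push Not at hcon
    have h2 := hG.grow n (by have := hn.1; omega) y hn.2.1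
    have h3 : (2 : ℝ) ^ N ≤ 2 ^ (n / 2) := pow_le_pow_right₀ (by norm_num) (by omega)
    have h4 : C * |dE l n y| ≤ 1 / D := by
      rw [le_div_iff₀ hD]
      have := hn.2.2
      nlinarith
    linarith
  have hmem := Nat.sSup_mem hne hbdd
  set n := sSup S with hn
  refine ⟨n, hmem.1, hmem.2.1, hmem.2.2, ?_⟩
  by_contra hcon
  push Not at hcon
  obtain ⟨n', h5, h6, h7⟩ := hG.next n (by have := hmem.1; omega) y hy hmem.2.1
  have h8 : n' ∈ S := by
    refine ⟨by have := hmem.1; omega, h6, le_trans ?_ hcon⟩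
    exact mul_le_mul_of_nonneg_left (mul_le_mul_of_nonneg_left h7 hD.le) hC0.le
  have := le_csSup hbdd h8
  omega

/-- energies close to the ends of the bands in the sense of the integrated density of states -/
def bad (l κ : ℝ) (k : ℕ) (δ : ℝ) : Set ℝ :=
  {x | ∃ p, |tr l k p| = κ ∧ |ids l x - ids l p| ≤ δ}

lemma seg_of_good {l κ : ℝ} {k : ℕ} {δ x : ℝ} (hx : x ∉ bad l κ k δ) (h1 : |tr l k x| ≤ κ) {w : ℝ}
    (hw : |ids l w - ids l x| ≤ δ) : ∀ e ∈ uIcc x w, |tr l k e| ≤ κ := by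
  intro e he
  by_contra hcon
  push Not at hcon
  have hc : ContinuousOn (fun z => |tr l k z|) (uIcc x e) := (cont_tr l k).abs.continuousOn
  have hiv := intermediate_value_uIcc hc
  have hmem : κ ∈ uIcc (|tr l k x|) (|tr l k e|) := by
    rw [uIcc_of_le (h1.trans hcon.le)]
    exact ⟨h1, hcon.le⟩
  obtain ⟨p, hp, hpk⟩ := hiv hmem
  apply hx
  refine ⟨p, hpk, ?_⟩
  have hpw : p ∈ uIcc x w := uIcc_subset_uIcc left_mem_uIcc he hp
  have hm := ids_mono l
  rcases le_total x w with h | h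
  · rw [uIcc_of_le h] at hpw
    have a1 := hm hpw.1
    have a2 := hm hpw.2
    rw [abs_sub_comm, abs_of_nonneg (by linarith)]
    rw [abs_of_nonneg (by linarith)] at hw
    linarith
  · rw [uIcc_of_ge h] at hpw
    have a1 := hm hpw.1
    have a2 := hm hpw.2
    rw [abs_of_nonneg (by linarith)]
    rw [abs_sub_comm, abs_of_nonneg (by linarith)] at hw
    linarith

/-- measure of the bad sets -/
lemma bad_meas {l κ : ℝ} (hl : 0 < l) (hκ0 : 0 ≤ κ) (hκ : κ < cc (l / 2)) {k : ℕ} (hk : 1 ≤ k)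
    (δ : ℝ) : mu l (bad l κ k δ) ≤ ENNReal.ofReal (4 * Nat.fib k * δ) ∧
      MeasurableSet (bad l κ k δ) := by
  classical
  obtain ⟨-, hz, -⟩ := hZ l hl.ne' k hk
  obtain ⟨f1, c1⟩ := hz κ (by rwa [abs_of_nonneg hκ0])
  obtain ⟨f2, c2⟩ := hz (-κ) (by rwa [abs_neg, abs_of_nonneg hκ0])
  set L : Finset ℝ := f1.toFinset ∪ f2.toFinset with hL
  have hcard : L.card ≤ 2 * Nat.fib k := by
    refine (Finset.card_union_le _ _).trans ?_
    rw [← Set.ncard_eq_toFinset_card _ f1, ← Set.ncard_eq_toFinset_card _ f2, c1, c2]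
    omega
  have hset : bad l κ k δ = ⋃ p ∈ L, {x | |ids l x - ids l p| ≤ δ} := by
    ext x
    simp only [bad, mem_ofPred_eq, mem_iUnion, hL, Finset.mem_union, Finite.mem_toFinset,
      exists_prop]
    constructor
    · rintro ⟨p, hp, hx⟩
      refine ⟨p, ?_, hx⟩
      rcases (abs_eq hκ0).1 hp with h | h
      · exact Or.inl h
      · exact Or.inr h
    · rintro ⟨p, hp, hx⟩
      refine ⟨p, ?_, hx⟩
      rcases hp with h | h
      · rw [h, abs_of_nonneg hκ0]
      · rw [h, abs_neg, abs_of_nonneg hκ0]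
  have hm : ∀ p : ℝ, MeasurableSet {x | |ids l x - ids l p| ≤ δ} := fun p =>
    (isClosed_le (((ids_cont hl).sub continuous_const).abs) continuous_const).measurableSet
  constructor
  · rw [hset]
    refine (measure_biUnion_finset_le _ _).trans ?_
    refine (Finset.sum_le_sum fun p _ => mass_le hl (ids l p) δ).trans ?_
    rw [Finset.sum_const, nsmul_eq_mul]
    rcases le_or_gt 0 δ with hδ | hδ
    · have h3 : (L.card : ENNReal) = ENNReal.ofReal (L.card : ℝ) := by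
        rw [ENNReal.ofReal_natCast]
      rw [h3, ← ENNReal.ofReal_mul (Nat.cast_nonneg _)]
      apply ENNReal.ofReal_le_ofReal
      have : (L.card : ℝ) ≤ 2 * Nat.fib k := by exact_mod_cast hcard
      nlinarith
    · rw [ENNReal.ofReal_of_nonpos (by linarith), mul_zero]
      exact zero_le
  · rw [hset]
    exact Finset.measurableSet_biUnion _ fun p _ => hm p

/-- the exceptional energies at level `n` -/
def Bn (l κ : ℝ) (M n : ℕ) : Set ℝ :=
  bad l κ (n - n / M) (20 / Nat.fib n) ∪ bad l κ (n - n / M + 1) (20 / Nat.fib n)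

/-- **core estimate** -/
theorem core {a b κa Ca κb Cb : ℝ} (ha : 0 < a) (hab : a ≤ b) (Ga : Geo a κa Ca)
    (Gb : Geo b κb Cb) {M n : ℕ} (hM : 2 ≤ M) (hn : M + 6 ≤ n) {x x' y y' D : ℝ}
    (hx : x ∈ Sp b one) (hyn : |tr a n y| ≤ 1)
    (ixy : ids b x = ids a y) (ixy' : ids b x' = ids a y') (hgood : x ∉ Bn b κb M n)
    (hD : 0 < D) (hyy : |y - y'| ≤ D) (s1 : Ca * (D * |dE a n y|) ≤ 1)
    (s2 : 1 < Ca * (D * (Ca * |dE a n y|))) :
    |x - x'| ≤ Cb ^ 3 * Ca ^ 4 * Cb ^ (n / M) * D := by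
  have hb : 0 < b := lt_of_lt_of_le ha hab
  have hn3 : 3 ≤ n := by omega
  have hCa : 1 ≤ Ca := Ga.C1
  have hCb : 1 ≤ Cb := Gb.C1
  have hF : (0 : ℝ) < Nat.fib n := by exact_mod_cast Nat.fib_pos.2 (by omega)
  -- counting
  obtain ⟨u, v, w1, w2, w3, w4⟩ := bnds hn3
  obtain ⟨j, hj⟩ := w1 a ha y hyn
  obtain ⟨-, j1, j2⟩ := w2 a ha j y hj
  obtain ⟨hltb, z, hz, hz0, hzv⟩ := w3 b hb j
  obtain ⟨-, j3, j4⟩ := w2 b hb j z hz
  have i1 := abs_le.1 (cle_ids ha (n := n) (by omega) y)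
  have i2 := abs_le.1 (cle_ids ha (n := n) (by omega) y')
  have i3 := abs_le.1 (cle_ids hb (n := n) (by omega) z)
  have hin : ∀ e ∈ uIcc y y', |tr a n e| ≤ κa := by
    refine Ga.inside n (by omega) y y' hyn (le_trans ?_ s1)
    refine mul_le_mul_of_nonneg_left (mul_le_mul_of_nonneg_right ?_ (abs_nonneg _)) (by linarith)
    rw [abs_sub_comm]; exact hyy
  have hcc : |(cle (Zr a n) y : ℝ) - cle (Zr a n) y'| ≤ 1 := by
    rcases le_total y y' with h | h
    · rw [uIcc_of_le h] at hin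
      have h1 := cle_seg ha (n := n) (by omega) Ga.kc hin
      have h2 : cle (Zr a n) y ≤ cle (Zr a n) y' := by
        unfold cle
        apply Finset.card_le_card
        intro t ht
        rw [Finset.mem_filter] at ht ⊢
        exact ⟨ht.1, ht.2.trans h⟩
      have h1' : (cle (Zr a n) y' : ℝ) ≤ cle (Zr a n) y + 1 := by exact_mod_cast h1
      have h2' : (cle (Zr a n) y : ℝ) ≤ cle (Zr a n) y' := by exact_mod_cast h2
      rw [abs_le]; constructor <;> linarith
    · rw [uIcc_of_ge h] at hin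
      have h1 := cle_seg ha (n := n) (by omega) Ga.kc hin
      have h2 : cle (Zr a n) y' ≤ cle (Zr a n) y := by
        unfold cle
        apply Finset.card_le_card
        intro t ht
        rw [Finset.mem_filter] at ht ⊢
        exact ⟨ht.1, ht.2.trans h⟩
      have h1' : (cle (Zr a n) y : ℝ) ≤ cle (Zr a n) y' + 1 := by exact_mod_cast h1
      have h2' : (cle (Zr a n) y' : ℝ) ≤ cle (Zr a n) y := by exact_mod_cast h2
      rw [abs_le]; constructor <;> linarith
  have hcc' := abs_le.1 hcc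
  have d1 : |ids b x' - ids b x| ≤ 20 / Nat.fib n := by
    rw [ixy, ixy', le_div_iff₀ hF, ← abs_of_pos hF, ← abs_mul, abs_le]
    constructor <;> nlinarith [i1.1, i1.2, i2.1, i2.2, hcc'.1, hcc'.2]
  have d2 : |ids b z - ids b x| ≤ 20 / Nat.fib n := by
    rw [ixy, le_div_iff₀ hF, ← abs_of_pos hF, ← abs_mul, abs_le]
    constructor <;> nlinarith [i1.1, i1.2, i3.1, i3.2]
  -- the lower level
  have hs1 : 1 ≤ n / M := by
    rw [Nat.one_le_div_iff (by omega)]; omega
  have hs2 : n / M ≤ n / 2 := Nat.div_le_div_left hM (by norm_num)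
  obtain ⟨k, hk3, hkn, hkM, htk, hgk⟩ : ∃ k, 3 ≤ k ∧ k ≤ n ∧ n - k ≤ n / M ∧ |tr b k x| ≤ 1 ∧
      x ∉ bad b κb k (20 / Nat.fib n) := by
    unfold Bn at hgood
    rw [mem_union, not_or] at hgood
    rcases sp_or hx (n := n - n / M) (by omega) with h | h
    · exact ⟨n - n / M, by omega, by omega, by omega, h, hgood.1⟩
    · exact ⟨n - n / M + 1, by omega, by omega, by omega, h, hgood.2⟩
  have hk1 : κb ≥ 1 := Gb.k1.le
  have seg1 := seg_of_good hgk (htk.trans hk1) d1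
  have seg2 := seg_of_good hgk (htk.trans hk1) d2
  have e5 := (Gb.dist k (by omega) x x' seg1).2.1
  have e5' := (Gb.dist k (by omega) z x (by rw [uIcc_comm]; exact seg2)).1
  have e6 := Gb.chain k n hk3 hkn z (seg2 z right_mem_uIcc) (by rw [hz0, abs_zero]; norm_num)
  have hvb : ∀ e ∈ uIcc (v j b) z, |tr b n e| ≤ κb := by
    intro e he
    rw [uIcc_of_ge hz.2] at he
    exact (w2 b hb j e ⟨hz.1.trans he.1, he.2⟩).1.trans hk1
  have e7 := (Gb.dist n (by omega) z (v j b) (by rw [uIcc_comm]; exact hvb)).2.2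
  rw [hz0, zero_sub, abs_neg, hzv] at e7
  have e7' : 1 ≤ Cb * ((v j b - u j b) * |dE b n z|) := by
    refine e7.trans (mul_le_mul_of_nonneg_left (mul_le_mul_of_nonneg_right ?_ (abs_nonneg _))
      (by linarith))
    rw [abs_sub_comm, abs_of_nonneg (by linarith [hz.2])]
    linarith [hz.1]
  have hlta := (w3 a ha j).1
  have haI : ∀ e ∈ Icc (u j a) (v j a), |tr a n e| ≤ κa := fun e he =>
    (w2 a ha j e he).1.trans Ga.k1.le
  have e8 := (Ga.dist n (by omega) (u j a) (v j a) (by rw [uIcc_of_le hlta.le]; exact haI)).2.1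
  have e8' := (Ga.dist n (by omega) y (u j a) (by
    rw [uIcc_comm, uIcc_of_le hj.1]
    exact fun e he => haI e ⟨he.1, he.2.trans hj.2⟩)).1
  rw [abs_sub_comm, abs_of_pos (by linarith)] at e8
  have e9 := w4 a b ha hab j
  -- abbreviations
  set La := v j a - u j a with hLa
  set Lb := v j b - u j b with hLb
  have hLa0 : 0 < La := by rw [hLa]; linarith
  have hLb0 : 0 < Lb := by rw [hLb]; linarith
  set X := |x - x'| with hX
  have hX0 : 0 ≤ X := abs_nonneg _
  have q1 : X ≤ Cb ^ 3 * Cb ^ (n - k) * Lb := by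
    have r1 : X * 1 ≤ X * (Cb * (Lb * |dE b n z|)) := mul_le_mul_of_nonneg_left e7' hX0
    have r2 : X * (Cb * (Lb * |dE b n z|)) ≤ X * (Cb * (Lb * (Cb ^ (n - k) * |dE b k z|))) := by
      gcongr
    have r3 : X * (Cb * (Lb * (Cb ^ (n - k) * |dE b k z|))) ≤
        X * (Cb * (Lb * (Cb ^ (n - k) * (Cb * |dE b k x|)))) := by
      gcongr
    have r4 : X * (Cb * (Lb * (Cb ^ (n - k) * (Cb * |dE b k x|)))) =
        Cb ^ 2 * Cb ^ (n - k) * Lb * (X * |dE b k x|) := by ring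
    have r5 : Cb ^ 2 * Cb ^ (n - k) * Lb * (X * |dE b k x|) ≤
        Cb ^ 2 * Cb ^ (n - k) * Lb * Cb := by
      gcongr
    have r6 : Cb ^ 2 * Cb ^ (n - k) * Lb * Cb = Cb ^ 3 * Cb ^ (n - k) * Lb := by ring
    linarith
  have q2 : Lb ≤ Ca ^ 4 * D := by
    have r0 : La * |dE a n y| ≤ Ca ^ 2 := by
      have : La * |dE a n y| ≤ La * (Ca * |dE a n (u j a)|) := by gcongr
      have h2 : La * (Ca * |dE a n (u j a)|) = Ca * (La * |dE a n (u j a)|) := by ring
      have h3 : Ca * (La * |dE a n (u j a)|) ≤ Ca * Ca := by gcongr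
      nlinarith
    have r1 : La * 1 ≤ La * (Ca * (D * (Ca * |dE a n y|))) :=
      mul_le_mul_of_nonneg_left s2.le hLa0.le
    have r2 : La * (Ca * (D * (Ca * |dE a n y|))) = Ca ^ 2 * D * (La * |dE a n y|) := by ring
    have r3 : Ca ^ 2 * D * (La * |dE a n y|) ≤ Ca ^ 2 * D * Ca ^ 2 := by gcongr
    have r4 : Ca ^ 2 * D * Ca ^ 2 = Ca ^ 4 * D := by ring
    linarith
  have q3 : Cb ^ (n - k) ≤ Cb ^ (n / M) := pow_le_pow_right₀ hCb hkM
  calc X ≤ Cb ^ 3 * Cb ^ (n - k) * Lb := q1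
    _ ≤ Cb ^ 3 * Cb ^ (n / M) * (Ca ^ 4 * D) := by gcongr
    _ = _ := by ring

end Pool.Agent.N658.FD
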