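import Pool.Agent.N658.FD.Hold

/-!
Hölder estimate on large sets, Borel-Cantelli.
-/

set_option autoImplicit false

open MeasureTheory Filter Topology Set ProbabilityTheory

namespace Pool.Agent.N658.FD

open Pool.Agent.W811.Stu Pool.Agent.W745.Fib Pool.Agent.Y662.FIB

/-- corresponding energies, with control from level `k` on -/
def RR (a b κ : ℝ) (M k : ℕ) : Set (ℝ × ℝ) :=
  {p | p.1 ∈ Sp b one ∧ p.2 ∈ Sp a one ∧ ids b p.1 = ids a p.2 ∧ ∀ n, k ≤ n → p.1 ∉ Bn b κ M n}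

theorem holder {a b κa Ca κb Cb : ℝ} (ha : 0 < a) (hab : a ≤ b) (Ga : Geo a κa Ca)
    (Gb : Geo b κb Cb) {P : ℕ} (hP : 2 ≤ P) : ∃ M : ℕ, 2 ≤ M ∧ ∀ k, ∃ K : ℝ,
      ∀ p ∈ RR a b κb M k, ∀ p' ∈ RR a b κb M k,
        |p.1 - p'.1| ≤ K * |p.2 - p'.2| ^ (1 - 1 / (P : ℝ)) := by
  have hb : 0 < b := lt_of_lt_of_le ha hab
  have hCa : 1 ≤ Ca := Ga.C1
  have hCb : 1 ≤ Cb := Gb.C1
  obtain ⟨q, hq⟩ := pow_unbounded_of_one_lt Cb (one_lt_two)
  set M : ℕ := 2 * (q + 1) * P with hM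
  have hM2 : 2 ≤ M := by
    rw [hM]
    calc 2 = 2 * 1 * 1 := by norm_num
      _ ≤ 2 * (q + 1) * P := Nat.mul_le_mul (Nat.mul_le_mul le_rfl (by omega)) (by omega)
  refine ⟨M, hM2, fun k => ?_⟩
  have hPr : (2 : ℝ) ≤ P := by exact_mod_cast hP
  set r : ℝ := 1 - 1 / (P : ℝ) with hr
  have hinv : 1 / (P : ℝ) ≤ 1 / 2 := one_div_le_one_div_of_le (by norm_num) hPr
  have hinv0 : 0 < 1 / (P : ℝ) := by positivity
  have hr0 : 0 < r := by rw [hr]; linarith
  set n1 : ℕ := max k (M + 6) with hn1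
  obtain ⟨B1, hB1⟩ := (isCompact_Icc (a := -(2 + a)) (b := 2 + a)).exists_bound_of_continuousOn
    (cont_dE a n1).continuousOn
  obtain ⟨B2, hB2⟩ := (isCompact_Icc (a := -(2 + a)) (b := 2 + a)).exists_bound_of_continuousOn
    (cont_dE a (n1 + 1)).continuousOn
  set B : ℝ := max 1 (max B1 B2) with hB
  have hB1' : 1 ≤ B := le_max_left _ _
  set D0 : ℝ := 1 / (Ca * B) with hD0
  have hD00 : 0 < D0 := by positivity
  set K1 : ℝ := Cb ^ 3 * Ca ^ 4 with hK1
  have hK10 : 0 < K1 := by positivity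
  set K2 : ℝ := 2 * (2 + b) / D0 ^ r with hK2
  have hD0r : 0 < D0 ^ r := Real.rpow_pos_of_pos hD00 _
  have hK20 : 0 < K2 := by positivity
  -- small distances
  have small : ∀ p ∈ RR a b κb M k, ∀ p' ∈ RR a b κb M k, ∀ D : ℝ, 0 < D → D ≤ D0 →
      |p.2 - p'.2| ≤ D → |p.1 - p'.1| ≤ K1 * D ^ r := by
    rintro ⟨x, y⟩ ⟨h1, h2, h3, h4⟩ ⟨x', y'⟩ ⟨h1', h2', h3', h4'⟩ D hD hDD hyy
    simp only at h1 h2 h3 h4 h1' h2' h3' h4' hyy ⊢
    have hbd : ∀ n, n1 ≤ n → n ≤ n1 + 1 → Ca * (D * |dE a n y|) ≤ 1 := by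
      intro n hn hn'
      have hyI : y ∈ Icc (-(2 + a)) (2 + a) := abs_le.1 (sp_bdd ha h2)
      have hd : |dE a n y| ≤ B := by
        rcases (by omega : n = n1 ∨ n = n1 + 1) with h | h
        · rw [h]
          exact (hB1 y hyI).trans ((le_max_left _ _).trans (le_max_right _ _))
        · rw [h]
          exact (hB2 y hyI).trans ((le_max_right _ _).trans (le_max_right _ _))
      calc Ca * (D * |dE a n y|) ≤ Ca * (D0 * B) := by gcongr
        _ = 1 := by rw [hD0]; field_simp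
    have hn1' : M + 6 ≤ n1 := le_max_right _ _
    obtain ⟨n, g1, g2, g3, g4⟩ := sel Ga h2 (n1 := n1) (by omega) hD hbd
    have hcore := core ha hab Ga Gb hM2 (n := n) (by omega) h1 g2 h3 h3'
      (h4 n ((le_max_left _ _).trans g1)) hD hyy g3 g4
    have hgr := Ga.grow n (by omega) y g2
    have hD2 : D * 2 ^ (n / 2) ≤ 1 := by
      calc D * 2 ^ (n / 2) ≤ D * (Ca * |dE a n y|) := by gcongr
        _ = Ca * (D * |dE a n y|) := by ring
        _ ≤ 1 := g3
    set T : ℝ := 2 ^ ((q + 1) * (n / M)) with hT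
    have hT0 : 0 < T := by positivity
    have hCT : Cb ^ (n / M) ≤ T := by
      rw [hT, pow_mul]
      apply pow_le_pow_left₀ (by linarith)
      refine hq.le.trans ?_
      exact pow_le_pow_right₀ (by norm_num) (by omega)
    have hTP : T ^ P ≤ 1 / D := by
      rw [le_div_iff₀ hD, hT, ← pow_mul, mul_comm]
      refine le_trans (mul_le_mul_of_nonneg_left ?_ hD.le) hD2
      apply pow_le_pow_right₀ (by norm_num)
      have h5 : n / M * M ≤ n := Nat.div_mul_le_self n M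
      have h6 : n / M * M = 2 * ((q + 1) * (n / M) * P) := by rw [hM]; ring
      omega
    have hT1 : T ≤ (1 / D) ^ (1 / (P : ℝ)) := by
      have h5 : T = (T ^ P) ^ (1 / (P : ℝ)) := by
        rw [one_div, Real.pow_rpow_inv_natCast hT0.le (by omega)]
      rw [h5]
      exact Real.rpow_le_rpow (by positivity) hTP hinv0.le
    have hTD : T * D ≤ D ^ r := by
      calc T * D ≤ (1 / D) ^ (1 / (P : ℝ)) * D := by gcongr
        _ = D ^ r := by
          rw [one_div D, Real.inv_rpow hD.le, ← Real.rpow_neg hD.le, hr]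
          nth_rewrite 2 [← Real.rpow_one D]
          rw [← Real.rpow_add hD]
          congr 1
          ring
    calc |x - x'| ≤ Cb ^ 3 * Ca ^ 4 * Cb ^ (n / M) * D := hcore
      _ ≤ Cb ^ 3 * Ca ^ 4 * T * D := by gcongr
      _ = K1 * (T * D) := by rw [hK1]; ring
      _ ≤ K1 * D ^ r := by gcongr
  refine ⟨K1 + K2, fun p hp p' hp' => ?_⟩
  have hr' : 0 ≤ |p.2 - p'.2| ^ r := Real.rpow_nonneg (abs_nonneg _) _
  rcases le_or_gt (|p.2 - p'.2|) D0 with h | h
  · rcases eq_or_lt_of_le (abs_nonneg (p.2 - p'.2)) with h0 | h0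
    · -- equal second coordinates
      have hle : |p.1 - p'.1| ≤ 0 := by
        have hlim : Tendsto (fun D : ℝ => K1 * D ^ r) (𝓝[>] 0) (𝓝 (K1 * 0 ^ r)) := by
          apply Tendsto.const_mul
          exact ((Real.continuous_rpow_const hr0.le).tendsto 0).mono_left nhdsWithin_le_nhds
        rw [Real.zero_rpow hr0.ne', mul_zero] at hlim
        refine ge_of_tendsto hlim ?_
        have : Ioc (0:ℝ) D0 ∈ 𝓝[>] (0:ℝ) := Ioc_mem_nhdsGT hD00
        filter_upwards [this] with D hD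
        exact small p hp p' hp' D hD.1 hD.2 (by rw [← h0]; exact hD.1.le)
      have : 0 ≤ (K1 + K2) * |p.2 - p'.2| ^ r := by positivity
      linarith
    · have := small p hp p' hp' _ h0 h le_rfl
      nlinarith
  · have h1 := sp_bdd hb hp.1
    have h2 := sp_bdd hb hp'.1
    have h3 : |p.1 - p'.1| ≤ 2 * (2 + b) := (abs_sub _ _).trans (by linarith)
    have h4 : D0 ^ r ≤ |p.2 - p'.2| ^ r := Real.rpow_le_rpow hD00.le h.le hr0.le
    have h5 : K2 * D0 ^ r = 2 * (2 + b) := by rw [hK2]; field_simp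
    have h6 : K2 * D0 ^ r ≤ K2 * |p.2 - p'.2| ^ r := by gcongr
    nlinarith

lemma fib_two (m j : ℕ) : 2 ^ j * Nat.fib m ≤ Nat.fib (m + 2 * j) := by
  induction j with
  | zero => simp
  | succ j ih =>
    have e : m + 2 * (j + 1) = (m + 2 * j) + 2 := by ring
    rw [e, Nat.fib_add_two, pow_succ]
    have : Nat.fib (m + 2 * j) ≤ Nat.fib (m + 2 * j + 1) := Nat.fib_le_fib_succ
    nlinarith

/-- **Borel-Cantelli** -/
theorem ae_good {l κ : ℝ} (hl : 0 < l) (hκ0 : 0 ≤ κ) (hκ : κ < cc (l / 2)) {M : ℕ} (hM : 2 ≤ M) :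
    ∀ᵐ x ∂(mu l), ∃ k, ∀ n, k ≤ n → x ∉ Bn l κ M n := by
  -- the comparison series
  set ρ : ℝ := (1 / 2 : ℝ) ^ (1 / (2 * M : ℝ)) with hρ
  have hM0 : (0 : ℝ) < 2 * M := by
    have : (2 : ℝ) ≤ M := by exact_mod_cast hM
    linarith
  have hρ0 : 0 < ρ := Real.rpow_pos_of_pos (by norm_num) _
  have hρ1 : ρ < 1 := Real.rpow_lt_one (by norm_num) (by norm_num) (by positivity)
  have hρM : ρ ^ (2 * M) = 1 / 2 := by
    rw [hρ, ← Real.rpow_natCast, ← Real.rpow_mul (by norm_num)]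
    push_cast
    rw [one_div_mul_cancel hM0.ne', Real.rpow_one]
  have hsum : Summable (fun n : ℕ => 640 * ρ ^ n) :=
    (summable_geometric_of_lt_one hρ0.le hρ1).mul_left _
  -- bound of the measures
  have hmeas : ∀ n : ℕ, M + 6 ≤ n → mu l (Bn l κ M n) ≤ ENNReal.ofReal (640 * ρ ^ n) := by
    intro n hn
    have hF : (0 : ℝ) < Nat.fib n := by exact_mod_cast Nat.fib_pos.2 (by omega)
    have hs1 : 1 ≤ n / M := by
      rw [Nat.one_le_div_iff (by omega)]; omega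
    have hs2 : n / M ≤ n / 2 := Nat.div_le_div_left hM (by norm_num)
    unfold Bn
    refine (measure_union_le _ _).trans ?_
    have b1 := (bad_meas hl hκ0 hκ (k := n - n / M) (by omega) (20 / Nat.fib n)).1
    have b2 := (bad_meas hl hκ0 hκ (k := n - n / M + 1) (by omega) (20 / Nat.fib n)).1
    refine (add_le_add b1 b2).trans ?_
    rw [← ENNReal.ofReal_add (by positivity) (by positivity)]
    apply ENNReal.ofReal_le_ofReal
    -- fib (n - s + 2) * 2 ^ (s / 2) ≤ 4 * fib n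
    set s := n / M with hs
    have h1 : (Nat.fib (n - s) : ℝ) + Nat.fib (n - s + 1) = Nat.fib (n - s + 2) := by
      rw [Nat.fib_add_two]; push_cast; ring
    have h2 : Nat.fib (n - s + 2) * 2 ^ (s / 2) ≤ 4 * Nat.fib n := by
      have h3 := fib_two (n - s) (s / 2)
      have h4 : Nat.fib (n - s + 2 * (s / 2)) ≤ Nat.fib n := Nat.fib_mono (by omega)
      have h5 : Nat.fib (n - s + 2) ≤ 4 * Nat.fib (n - s) := by
        have e1 : Nat.fib (n - s + 2) = Nat.fib (n - s) + Nat.fib (n - s + 1) := Nat.fib_add_two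
        obtain ⟨m, hm⟩ : ∃ m, n - s = m + 1 := ⟨n - s - 1, by omega⟩
        rw [hm] at e1 ⊢
        have e2 : Nat.fib (m + 1 + 1) = Nat.fib m + Nat.fib (m + 1) := Nat.fib_add_two
        have e3 : Nat.fib m ≤ Nat.fib (m + 1) := Nat.fib_le_fib_succ
        omega
      calc Nat.fib (n - s + 2) * 2 ^ (s / 2) ≤ 4 * Nat.fib (n - s) * 2 ^ (s / 2) :=
            Nat.mul_le_mul_right _ h5
        _ = 4 * (2 ^ (s / 2) * Nat.fib (n - s)) := by ring
        _ ≤ 4 * Nat.fib (n - s + 2 * (s / 2)) := Nat.mul_le_mul_left _ h3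
        _ ≤ 4 * Nat.fib n := Nat.mul_le_mul_left _ h4
    have h2' : (Nat.fib (n - s + 2) : ℝ) * 2 ^ (s / 2) ≤ 4 * Nat.fib n := by exact_mod_cast h2
    have h6 : 4 * (Nat.fib (n - s) : ℝ) * (20 / Nat.fib n) + 4 * (Nat.fib (n - s + 1) : ℝ) *
        (20 / Nat.fib n) = 80 * (Nat.fib (n - s + 2) : ℝ) / Nat.fib n := by
      rw [← h1]; ring
    rw [h6]
    have h7 : 80 * (Nat.fib (n - s + 2) : ℝ) / Nat.fib n ≤ 320 * (1 / 2 : ℝ) ^ (s / 2) := by
      rw [div_le_iff₀ hF, one_div, inv_pow, mul_assoc, ← div_eq_inv_mul, mul_div_assoc',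
        le_div_iff₀ (by positivity)]
      linarith
    refine h7.trans ?_
    -- (1/2)^(s/2) ≤ 2 ρ^n
    have h8 : (1 / 2 : ℝ) ^ (s / 2) * (1 / 2) ≤ ρ ^ n := by
      rw [← hρM, ← pow_mul, ← pow_add]
      apply pow_le_pow_of_le_one hρ0.le hρ1.le
      have e1 : s / 2 = n / (M * 2) := by rw [hs, Nat.div_div_eq_div_mul]
      rw [e1]
      have e2 := Nat.div_add_mod n (M * 2)
      have e3 : n % (M * 2) < M * 2 := Nat.mod_lt _ (by omega)
      have e4 : 2 * M * (n / (M * 2)) = M * 2 * (n / (M * 2)) := by ring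
      omega
    nlinarith
  have hfin : ∑' n : ℕ, mu l (Bn l κ M (n + (M + 6))) ≠ ⊤ := by
    have h1 : ∑' n : ℕ, mu l (Bn l κ M (n + (M + 6))) ≤
        ∑' n : ℕ, ENNReal.ofReal (640 * ρ ^ (n + (M + 6))) :=
      ENNReal.tsum_le_tsum fun n => hmeas _ (by omega)
    have h2 : Summable (fun n : ℕ => 640 * ρ ^ (n + (M + 6))) :=
      (summable_nat_add_iff (M + 6)).2 hsum
    rw [← ENNReal.ofReal_tsum_of_nonneg (fun n => by positivity) h2] at h1
    exact ne_top_of_le_ne_top ENNReal.ofReal_ne_top h1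
  filter_upwards [ae_eventually_notMem hfin] with x hx
  obtain ⟨k, hk⟩ := eventually_atTop.1 hx
  refine ⟨k + (M + 6), fun n hn => ?_⟩
  have := hk (n - (M + 6)) (by omega)
  rwa [Nat.sub_add_cancel (by omega)] at this

end Pool.Agent.N658.FD
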