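import Mathlib

/-!
Almost Fibonacci sequences stay close to multiples of the Fibonacci sequence.
-/

set_option autoImplicit false

open Filter Topology

namespace Pool.Agent.N658.FD

lemma fib_le_pow (n : ℕ) : (Nat.fib n : ℝ) ≤ Real.goldenRatio ^ n := by
  have h : (Nat.fib n : ℝ) ≤ Real.goldenRatio ^ n ∧
      (Nat.fib (n + 1) : ℝ) ≤ Real.goldenRatio ^ (n + 1) := by
    induction n with
    | zero => simp [Real.one_lt_goldenRatio.le]
    | succ n ih =>
      refine ⟨ih.2, ?_⟩
      rw [show n + 1 + 1 = n + 2 by ring, Nat.fib_add_two]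
      push_cast
      have e : Real.goldenRatio ^ (n + 2) = Real.goldenRatio ^ n + Real.goldenRatio ^ (n + 1) := by
        rw [pow_add, Real.goldenRatio_sq]; ring
      rw [e]
      linarith [ih.1, ih.2]
  exact h.1

/-- a sequence with `|b (n+2) - b (n+1) - b n| ≤ 2` which is `o(fib)` is bounded -/
theorem bdd_of_small {b : ℕ → ℝ} (h0 : |b 0| ≤ 1)
    (hr : ∀ n, |b (n + 2) - b (n + 1) - b n| ≤ 2)
    (hlim : Tendsto (fun n => b n / Real.goldenRatio ^ n) atTop (𝓝 0)) (n : ℕ) : |b n| ≤ 9 := by
  set φ := Real.goldenRatio with hφ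
  have hφ2 : φ ^ 2 = φ + 1 := Real.goldenRatio_sq
  have hφ1 : 1 < φ := Real.one_lt_goldenRatio
  have hφ3 : φ < 2 := Real.goldenRatio_lt_two
  have hφl : (1.6 : ℝ) < φ := by nlinarith
  have hφu : φ < 1.62 := by nlinarith
  set c : ℝ := 2 * φ with hc
  -- the combination
  set β : ℕ → ℝ := fun n => b (n + 1) + (φ - 1) * b n with hβ
  have step : ∀ n, |β (n + 1) - φ * β n| ≤ 2 := by
    intro n
    have e : β (n + 1) - φ * β n = b (n + 2) - b (n + 1) - b n := by
      simp only [hβ]
      rw [show n + 1 + 1 = n + 2 by ring]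
      linear_combination (-(b n)) * hφ2
    rw [e]; exact hr n
  have grow : ∀ n η, 0 ≤ η → c + η ≤ |β n| → ∀ k, c + φ ^ k * η ≤ |β (n + k)| := by
    intro n η hη h k
    induction k with
    | zero => simpa using h
    | succ k ih =>
      have h1 := step (n + k)
      have h2 : φ * |β (n + k)| - 2 ≤ |β (n + (k + 1))| := by
        have h3 : |φ * β (n + k)| ≤ |β (n + k + 1)| + |β (n + k + 1) - φ * β (n + k)| := by
          have := abs_sub_abs_le_abs_sub (φ * β (n + k)) (β (n + k + 1))
          rw [abs_sub_comm] at this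
          linarith
        rw [abs_mul, abs_of_pos (by linarith : 0 < φ)] at h3
        have e : n + (k + 1) = n + k + 1 := by ring
        rw [e]; linarith
      have h4 : φ * (c + φ ^ k * η) ≤ φ * |β (n + k)| := mul_le_mul_of_nonneg_left ih (by linarith)
      have h5 : φ * c - 2 = c := by rw [hc]; linear_combination 2 * hφ2
      have h6 : φ ^ (k + 1) * η = φ * (φ ^ k * η) := by rw [pow_succ]; ring
      linarith
  have hβlim : Tendsto (fun n => β n / φ ^ n) atTop (𝓝 0) := by
    have h1 := (hlim.comp (tendsto_add_atTop_nat 1)).const_mul φ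
    have h2 := hlim.const_mul (φ - 1)
    have := h1.add h2
    rw [mul_zero, mul_zero, add_zero] at this
    refine this.congr fun n => ?_
    simp only [hβ, Function.comp]
    have : φ ^ n ≠ 0 := pow_ne_zero _ (by linarith)
    field_simp
    ring
  have hβb : ∀ n, |β n| ≤ c := by
    intro n
    by_contra hcon
    push Not at hcon
    set η := |β n| - c with hη
    have hη0 : 0 < η := by linarith
    have hg := grow n η hη0.le (by linarith)
    have h1 : Tendsto (fun k => |β (n + k) / φ ^ (n + k)|) atTop (𝓝 0) := by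
      have := (hβlim.comp (tendsto_add_atTop_nat n)).abs
      rw [abs_zero] at this
      refine this.congr fun k => ?_
      simp only [Function.comp, add_comm]
    have h2 : ∀ k, η / φ ^ n ≤ |β (n + k) / φ ^ (n + k)| := by
      intro k
      have p1 : 0 < φ ^ n := pow_pos (by linarith) _
      have p2 : 0 < φ ^ k := pow_pos (by linarith) _
      rw [abs_div, abs_of_pos (pow_pos (by linarith : 0 < φ) (n + k)), pow_add,
        div_le_div_iff₀ p1 (by positivity)]
      have := hg k
      have hc0 : 0 ≤ c := by rw [hc]; linarith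
      nlinarith
    have h3 := ge_of_tendsto' h1 h2
    have : 0 < η / φ ^ n := by positivity
    linarith
  induction n with
  | zero => linarith
  | succ n ih =>
    have h1 := hβb n
    have h2 : b (n + 1) = β n - (φ - 1) * b n := by simp only [hβ]; ring
    rw [h2]
    refine (abs_sub _ _).trans ?_
    rw [abs_mul, abs_of_pos (by linarith : 0 < φ - 1)]
    have : (φ - 1) * |b n| ≤ 0.62 * 9 := by
      apply mul_le_mul (by linarith) ih (abs_nonneg _) (by norm_num)
    rw [hc] at h1
    linarith

end Pool.Agent.N658.FD
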