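import Pool.Agent.N658.FD.Basic
import Pool.Agent.N658.FD.Seq
import Pool.Agent.N658.FD.Cdf
import Pool.Agent.W811.Dos.Final

/-!
The density of states measure and the integrated density of states.
-/

set_option autoImplicit false

open MeasureTheory Filter Topology Set ProbabilityTheory

namespace Pool.Agent.N658.FD

open Pool.Agent.W811.Stu Pool.Agent.W811.Dos Pool.Agent.W965.Stu Pool.Agent.W745.Fib
open Pool.Agent.H695R3.ST

theorem tdos : TDos := Pool.Agent.W672.Dos.dos Pool.Agent.W247.Dos.tr Pool.Agent.W688.Dos.wl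
  Pool.Agent.W688.Dos.zc tQf Pool.Agent.W247.Dos.lm

theorem tat : TAt := tAt Pool.Agent.W335.Dos.na Pool.Agent.W688.Dos.zc

lemma exists_mu {lam : ℝ} (hl : 0 < lam) : ∃ μ : Measure ℝ, IsProbabilityMeasure μ ∧
    Lim (fun m => zs lam m one) μ ∧ ∀ E, μ {E} = 0 := by
  obtain ⟨μ, h1, -, h2⟩ := tdos lam hl al al_irr al_pos al_lt
  have h3 := tat lam hl al al_irr al_pos al_lt μ h1.1 h2
  rw [dig_al] at h2
  exact ⟨μ, h1.1, h2, h3⟩

/-- the density of states measure -/
noncomputable def mu (lam : ℝ) : Measure ℝ := by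
  classical exact if h : 0 < lam then (exists_mu h).choose else Measure.dirac 0

lemma mu_spec {lam : ℝ} (hl : 0 < lam) : IsProbabilityMeasure (mu lam) ∧
    Lim (fun m => zs lam m one) (mu lam) ∧ ∀ E, mu lam {E} = 0 := by
  unfold mu
  rw [dif_pos hl]
  exact (exists_mu hl).choose_spec

instance (lam : ℝ) : IsProbabilityMeasure (mu lam) := by
  by_cases h : 0 < lam
  · exact (mu_spec h).1
  · unfold mu; rw [dif_neg h]; infer_instance

/-- integrated density of states -/
noncomputable def ids (lam E : ℝ) : ℝ := cdf (mu lam) E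

lemma ids_mono (lam : ℝ) : Monotone (ids lam) := (cdf (mu lam)).mono

lemma ids_nonneg (lam E : ℝ) : 0 ≤ ids lam E := cdf_nonneg _ _
lemma ids_le_one (lam E : ℝ) : ids lam E ≤ 1 := cdf_le_one _ _

lemma ids_cont {lam : ℝ} (hl : 0 < lam) : Continuous (ids lam) :=
  continuous_iff_continuousAt.2 fun E => cdf_cont (mu lam) ((mu_spec hl).2.2 E)

lemma ids_lim {lam : ℝ} (hl : 0 < lam) (E : ℝ) :
    Tendsto (fun m => (cle (zs lam m one) E : ℝ) / (zs lam m one).card) atTop (𝓝 (ids lam E)) := by
  have h := cdf_lim (M := fun m => (zs lam m one).val) (c := fun m => ((zs lam m one).card : ℝ))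
    (fun m => Nat.cast_nonneg _) (μ := mu lam)
    (fun g hg _ => (mu_spec hl).2.1 g hg) ((mu_spec hl).2.2 E)
  exact h

lemma fib_lower (n : ℕ) : Real.goldenRatio ^ n ≤ 2 * (Nat.fib (n + 1) : ℝ) := by
  have h : Real.goldenRatio ^ n ≤ 2 * (Nat.fib (n + 1) : ℝ) ∧
      Real.goldenRatio ^ (n + 1) ≤ 2 * (Nat.fib (n + 2) : ℝ) := by
    induction n with
    | zero =>
      have := Real.goldenRatio_lt_two
      constructor
      · norm_num
      · have : Nat.fib (0 + 2) = 1 := rfl
        rw [this]; push_cast; linarith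
    | succ n ih =>
      refine ⟨ih.2, ?_⟩
      have e : Real.goldenRatio ^ (n + 1 + 1) =
          Real.goldenRatio ^ n + Real.goldenRatio ^ (n + 1) := by
        rw [show n + 1 + 1 = n + 2 by ring, pow_add, Real.goldenRatio_sq]; ring
      have f : Nat.fib (n + 1 + 2) = Nat.fib (n + 1) + Nat.fib (n + 2) := Nat.fib_add_two
      rw [e, f]
      push_cast
      linarith [ih.1, ih.2]
  exact h.1

/-- **the counting function is close to the integrated density of states** -/
theorem cle_ids {lam : ℝ} (hl : 0 < lam) {n : ℕ} (hn : 2 ≤ n) (E : ℝ) :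
    |(cle (Zr lam n) E : ℝ) - Nat.fib n * ids lam E| ≤ 9 := by
  obtain ⟨n, rfl⟩ : ∃ k, n = k + 2 := ⟨n - 2, by omega⟩
  refine bdd_of_small (b := fun n => (cle (Zr lam (n + 2)) E : ℝ) - Nat.fib (n + 2) * ids lam E)
    ?_ ?_ ?_ n
  · have h1 : Nat.fib (0 + 2) = 1 := rfl
    have h2 := cle_add (Zr lam (0 + 2)) E
    rw [card_Zr hl (le_refl 2), h1] at h2
    have h3 : cle (Zr lam (0 + 2)) E ≤ 1 := by omega
    have h4 : (cle (Zr lam (0 + 2)) E : ℝ) ≤ 1 := by exact_mod_cast h3
    have h5 : (0 : ℝ) ≤ (cle (Zr lam (0 + 2)) E : ℝ) := Nat.cast_nonneg _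
    have h6 := ids_nonneg lam E
    have h7 := ids_le_one lam E
    rw [h1, abs_le]
    push_cast
    constructor <;> linarith
  · intro n
    obtain ⟨h1, h2⟩ := cle_rec hl (n := n + 2) (by omega) E
    have f : Nat.fib (n + 2 + 2) = Nat.fib (n + 2) + Nat.fib (n + 2 + 1) := Nat.fib_add_two
    have h1' : (cle (Zr lam (n + 2 + 1)) E : ℝ) + cle (Zr lam (n + 2)) E ≤
      cle (Zr lam (n + 2 + 2)) E + 2 := by exact_mod_cast h1
    have h2' : (cle (Zr lam (n + 2 + 2)) E : ℝ) ≤ cle (Zr lam (n + 2 + 1)) E +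
      cle (Zr lam (n + 2)) E + 2 := by exact_mod_cast h2
    have e1 : n + 1 + 2 = n + 2 + 1 := by ring
    simp only [e1]
    rw [f, abs_le]
    push_cast
    constructor <;> nlinarith
  · have h1 := (ids_lim hl E).comp (tendsto_add_atTop_nat 1)
    have h2 : Tendsto (fun n => (cle (Zr lam (n + 2)) E : ℝ) / Nat.fib (n + 2) - ids lam E) atTop
        (𝓝 0) := by
      have := h1.sub_const (ids lam E)
      rw [sub_self] at this
      refine this.congr fun n => ?_
      simp only [Function.comp]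
      have e : zs lam (n + 1) one = Zr lam (n + 2) := rfl
      rw [e, card_Zr hl (by omega)]
    have hb : ∀ n : ℕ, |((cle (Zr lam (n + 2)) E : ℝ) - Nat.fib (n + 2) * ids lam E) /
        Real.goldenRatio ^ n| ≤ 4 *
          |(cle (Zr lam (n + 2)) E : ℝ) / Nat.fib (n + 2) - ids lam E| := by
      intro n
      have p1 : (0 : ℝ) < Nat.fib (n + 2) := by exact_mod_cast Nat.fib_pos.2 (by omega)
      have p2 : 0 < Real.goldenRatio ^ n := pow_pos Real.goldenRatio_pos _
      have e : (cle (Zr lam (n + 2)) E : ℝ) - Nat.fib (n + 2) * ids lam E =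
          Nat.fib (n + 2) * ((cle (Zr lam (n + 2)) E : ℝ) / Nat.fib (n + 2) - ids lam E) := by
        field_simp
      rw [e, abs_div, abs_mul, abs_of_pos p1, abs_of_pos p2, div_le_iff₀ p2]
      have h3 := fib_le_pow (n + 2)
      rw [pow_add, Real.goldenRatio_sq] at h3
      have h4 := Real.goldenRatio_lt_two
      have h5 : (Nat.fib (n + 2) : ℝ) ≤ 4 * Real.goldenRatio ^ n := by nlinarith
      have h6 := abs_nonneg ((cle (Zr lam (n + 2)) E : ℝ) / Nat.fib (n + 2) - ids lam E)
      nlinarith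
    have h7 := h2.abs.const_mul 4
    rw [abs_zero, mul_zero] at h7
    exact squeeze_zero_norm hb h7

/-- mass of level sets of the integrated density of states -/
theorem mass_le {lam : ℝ} (hl : 0 < lam) (t δ : ℝ) :
    mu lam {x | |ids lam x - t| ≤ δ} ≤ ENNReal.ofReal (2 * δ) := by
  set S : Set ℝ := {x | |ids lam x - t| ≤ δ} with hS
  have hc := ids_cont hl
  have hcl : IsClosed S := isClosed_le ((hc.sub continuous_const).abs) continuous_const
  -- compact approximation
  have key : ∀ R : ℝ, mu lam (S ∩ Icc (-R) R) ≤ ENNReal.ofReal (2 * δ) := by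
    intro R
    rcases (S ∩ Icc (-R) R).eq_empty_or_nonempty with h | h
    · rw [h]; simp
    have hcomp : IsCompact (S ∩ Icc (-R) R) := isCompact_Icc.inter_left hcl
    obtain ⟨a, ha, hamin⟩ := hcomp.exists_isLeast h
    obtain ⟨b, hb, hbmax⟩ := hcomp.exists_isGreatest h
    have hab : a ≤ b := hamin hb
    have hsub : S ∩ Icc (-R) R ⊆ Icc a b := fun x hx => ⟨hamin hx, hbmax hx⟩
    refine (measure_mono hsub).trans ?_
    have h1 : Icc a b = {a} ∪ Ioc a b := by
      rw [singleton_union, Ioc_insert_left hab]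
    have h2 : mu lam (Icc a b) ≤ mu lam (Ioc a b) := by
      rw [h1]
      refine (measure_union_le _ _).trans ?_
      rw [(mu_spec hl).2.2 a, zero_add]
    refine h2.trans ?_
    have h3 : mu lam (Ioc a b) = ENNReal.ofReal (ids lam b - ids lam a) := by
      have := (cdf (mu lam)).measure_Ioc a b
      rw [measure_cdf] at this
      exact this
    rw [h3]
    apply ENNReal.ofReal_le_ofReal
    have ha' := abs_le.1 (show |ids lam a - t| ≤ δ from ha.1)
    have hb' := abs_le.1 (show |ids lam b - t| ≤ δ from hb.1)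
    linarith [ha'.1, hb'.2]
  have hmono : Monotone (fun n : ℕ => S ∩ Icc (-(n : ℝ)) n) := by
    intro m n hmn x hx
    have : (m : ℝ) ≤ n := by exact_mod_cast hmn
    exact ⟨hx.1, by linarith [hx.2.1], by linarith [hx.2.2]⟩
  have hU : S = ⋃ n : ℕ, S ∩ Icc (-(n : ℝ)) n := by
    ext x
    simp only [mem_iUnion, mem_inter_iff]
    constructor
    · intro hx
      obtain ⟨n, hn⟩ := exists_nat_ge |x|
      exact ⟨n, hx, abs_le.1 hn⟩
    · rintro ⟨n, hx, -⟩
      exact hx
  rw [hU, hmono.measure_iUnion]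
  exact iSup_le fun n => key n

end Pool.Agent.N658.FD
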