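import Pool.Agent.N658.FD.Ids

/-!
Eigenvalues of the restrictions to finite intervals.
-/

set_option autoImplicit false

open MeasureTheory Filter Topology Set ProbabilityTheory

namespace Pool.Agent.N658.FD

open Pool.Agent.W811.Stu Pool.Agent.W811.Dos Pool.Agent.W965.Stu Pool.Agent.W745.Fib
open Pool.Agent.H695R3.ST Pool.Agent.W247.Dos Pool.Agent.W688.Dos Pool.Agent.H84R3
open Pool.Agent.W672.Dos

/-- the restriction of `Δ + V` to `{1, …, N}` -/
noncomputable def HM (V : ℤ → ℝ) (N : ℕ) : Matrix (Fin N) (Fin N) ℝ := fun i j =>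
  (if i = j then V ((i : ℕ) + 1) else 0) +
    (if (i : ℕ) + 1 = j ∨ (j : ℕ) + 1 = i then 1 else 0)

variable {V : ℤ → ℝ} {N : ℕ}

lemma HM_herm (V : ℤ → ℝ) (N : ℕ) : (HM V N).IsHermitian := by
  ext i j
  simp only [Matrix.conjTranspose_apply, HM, star_trivial]
  congr 1
  · by_cases h : i = j
    · subst h; rfl
    · rw [if_neg h, if_neg (Ne.symm h)]
  · simp only [or_comm]

/-- extension by zero -/
noncomputable def e0 (u : Fin N → ℝ) (l : ℤ) : ℝ :=
  if h : 1 ≤ l ∧ l ≤ N then u ⟨(l - 1).toNat, by omega⟩ else 0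

lemma e0_site (u : Fin N → ℝ) (j : Fin N) : e0 u ((j : ℕ) + 1) = u j := by
  unfold e0
  have hj := j.2
  rw [dif_pos (by constructor <;> omega)]
  congr 1
  apply Fin.ext
  simp

lemma e0_out (u : Fin N → ℝ) {l : ℤ} (h : ¬ (1 ≤ l ∧ l ≤ N)) : e0 u l = 0 := by
  unfold e0; rw [dif_neg h]

lemma HM_mul (V : ℤ → ℝ) (u : Fin N → ℝ) (j : Fin N) :
    (HM V N).mulVec u j = sch V (e0 u) ((j : ℕ) + 1) := by
  have hj := j.2
  unfold Matrix.mulVec dotProduct sch HM
  simp only [add_mul, ite_mul, zero_mul, one_mul]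
  rw [Finset.sum_add_distrib]
  simp only [Finset.sum_ite_eq, Finset.mem_univ, if_true]
  rw [e0_site]
  have h1 : ∑ x : Fin N, (if (j : ℕ) + 1 = x ∨ (x : ℕ) + 1 = j then u x else 0) =
      (∑ x : Fin N, if (j : ℕ) + 1 = x then u x else 0) +
        ∑ x : Fin N, if (x : ℕ) + 1 = j then u x else 0 := by
    rw [← Finset.sum_add_distrib]
    refine Finset.sum_congr rfl fun x _ => ?_
    by_cases a : (j : ℕ) + 1 = x
    · rw [if_pos (Or.inl a), if_pos a, if_neg (by omega), add_zero]
    · by_cases b : (x : ℕ) + 1 = j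
      · rw [if_pos (Or.inr b), if_neg a, if_pos b, zero_add]
      · rw [if_neg (by tauto), if_neg a, if_neg b, add_zero]
  have h2 : (∑ x : Fin N, if (j : ℕ) + 1 = x then u x else 0) = e0 u ((j : ℕ) + 1 + 1) := by
    by_cases h : (j : ℕ) + 1 < N
    · rw [Finset.sum_eq_single ⟨(j : ℕ) + 1, h⟩]
      · rw [if_pos rfl]
        have := e0_site u ⟨(j : ℕ) + 1, h⟩
        rw [← this]
        congr 1
      · intro x _ hx
        rw [if_neg]
        intro hc
        exact hx (Fin.ext hc.symm)
      · intro hc; exact absurd (Finset.mem_univ _) hc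
    · rw [e0_out u (by omega)]
      refine Finset.sum_eq_zero fun x _ => ?_
      rw [if_neg]
      have := x.2
      omega
  have h3 : (∑ x : Fin N, if (x : ℕ) + 1 = j then u x else 0) = e0 u ((j : ℕ) + 1 - 1) := by
    by_cases h : 1 ≤ (j : ℕ)
    · rw [Finset.sum_eq_single ⟨(j : ℕ) - 1, by omega⟩]
      · rw [if_pos (by simp only; omega)]
        have := e0_site u ⟨(j : ℕ) - 1, by omega⟩
        rw [← this]
        congr 1
        simp only
        omega
      · intro x _ hx
        rw [if_neg]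
        intro hc
        apply hx
        apply Fin.ext
        simp only
        omega
      · intro hc; exact absurd (Finset.mem_univ _) hc
    · rw [e0_out u (by omega)]
      refine Finset.sum_eq_zero fun x _ => ?_
      rw [if_neg]
      omega
  rw [h1, h2, h3]
  ring

/-- iterated action on the unit vectors -/
noncomputable def it (V : ℤ → ℝ) (N : ℕ) (j : Fin N) (k : ℕ) : Fin N → ℝ :=
  ((HM V N) ^ k).mulVec (Pi.single j 1)

lemma it_zero (j : Fin N) : it V N j 0 = Pi.single j 1 := by
  unfold it; rw [pow_zero, Matrix.one_mulVec]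

lemma it_succ (j : Fin N) (k : ℕ) : it V N j (k + 1) = (HM V N).mulVec (it V N j k) := by
  unfold it; rw [pow_succ', Matrix.mulVec_mulVec]

lemma pow_diag (j : Fin N) (k : ℕ) : ((HM V N) ^ k) j j = it V N j k j := by
  unfold it
  rw [Matrix.mulVec_single_one]
  rfl

lemma e0_bound (u : Fin N → ℝ) {c : ℝ} (hc : 0 ≤ c) (hu : ∀ j, |u j| ≤ c) (l : ℤ) :
    |e0 u l| ≤ c := by
  unfold e0
  split_ifs
  · exact hu _
  · rwa [abs_zero]

lemma it_bound {B : ℝ} (hV : ∀ n, |V n| ≤ B) (j : Fin N) (k : ℕ) (i : Fin N) :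
    |it V N j k i| ≤ (2 + B) ^ k := by
  have hB : 0 ≤ B := (abs_nonneg _).trans (hV 0)
  induction k generalizing i with
  | zero =>
    rw [it_zero, pow_zero]
    by_cases h : i = j
    · subst h; simp
    · rw [Pi.single_eq_of_ne h, abs_zero]; norm_num
  | succ k ih =>
    rw [it_succ, HM_mul, pow_succ, mul_comm]
    exact sch_bound hV (e0_bound _ (by positivity) ih) _

lemma it_loc (V : ℤ → ℝ) (k : ℕ) (j : Fin N) (h1 : k ≤ j) (h2 : (j : ℕ) + k < N) :
    it V N j k j = loc V k ((j : ℕ) + 1) := by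
  have hj := j.2
  rw [← e0_site (it V N j k) j]
  have key : ∀ i, i ≤ k → ∀ n : ℤ, |n - ((j : ℕ) + 1)| ≤ (k : ℤ) - i →
      e0 (it V N j i) n = ((sch V)^[i] (fun l => if l = ((j : ℕ) + 1 : ℤ) then 1 else 0)) n := by
    intro i
    induction i with
    | zero =>
      intro _ n hn
      rw [abs_le] at hn
      simp only [Function.iterate_zero, id_eq]
      obtain ⟨m, rfl⟩ : ∃ m : ℕ, n = (m : ℤ) + 1 := ⟨(n - 1).toNat, by omega⟩
      have hm : m < N := by omega
      have := e0_site (it V N j 0) ⟨m, hm⟩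
      simp only at this
      rw [this, it_zero]
      by_cases h : m = j
      · subst h
        rw [if_pos rfl]
        simp
      · rw [Pi.single_eq_of_ne (by intro h'; exact h (congrArg Fin.val h')), if_neg (by omega)]
    | succ i ih =>
      intro hi n hn
      rw [abs_le] at hn
      have hn0 := ih (by omega) n (by rw [abs_le]; push_cast at hn; constructor <;> omega)
      have hn1 := ih (by omega) (n + 1) (by rw [abs_le]; push_cast at hn; constructor <;> omega)
      have hn2 := ih (by omega) (n - 1) (by rw [abs_le]; push_cast at hn; constructor <;> omega)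
      push_cast at hn
      obtain ⟨m, rfl⟩ : ∃ m : ℕ, n = (m : ℤ) + 1 := ⟨(n - 1).toNat, by omega⟩
      have hm : m < N := by omega
      have := e0_site (it V N j (i + 1)) ⟨m, hm⟩
      simp only at this
      rw [this, it_succ, HM_mul, Function.iterate_succ_apply', sch, sch]
      simp only
      rw [hn0, hn1, hn2]
  exact key k le_rfl _ (by simp)

/-- power sums of the eigenvalues -/
lemma eig_pow (V : ℤ → ℝ) (N k : ℕ) :
    ∑ i, ((HM_herm V N).eigenvalues i) ^ k = ∑ j : Fin N, it V N j k j := by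
  classical
  have hA := HM_herm V N
  have h1 : ((HM V N) ^ k).trace = ∑ i, (hA.eigenvalues i) ^ k := by
    have h2 : (HM V N) ^ k = Unitary.conjStarAlgAut ℝ _ hA.eigenvectorUnitary
        ((Matrix.diagonal (RCLike.ofReal ∘ hA.eigenvalues)) ^ k) := by
      rw [map_pow]
      congr 1
      exact hA.spectral_theorem
    rw [h2, Unitary.conjStarAlgAut_apply, Matrix.trace_mul_comm, ← mul_assoc,
      Unitary.coe_star_mul_self, one_mul, Matrix.diagonal_pow, Matrix.trace_diagonal]
    rfl
  rw [← h1, Matrix.trace]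
  exact Finset.sum_congr rfl fun j _ => pow_diag j k

lemma eig_pow_close {B : ℝ} (hV : ∀ n, |V n| ≤ B) (N k : ℕ) :
    |∑ i, ((HM_herm V N).eigenvalues i) ^ k - ∑ n ∈ Finset.range N, loc V k ((n : ℤ) + 1)| ≤
      2 * k * (2 * (2 + B) ^ k) := by
  have hB : 0 ≤ B := (abs_nonneg _).trans (hV 0)
  rw [eig_pow, ← Fin.sum_univ_eq_sum_range (fun n => loc V k ((n : ℤ) + 1)) N,
    ← Finset.sum_sub_distrib]
  set g : Fin N → ℝ := fun j => if (j : ℕ) < k ∨ N ≤ (j : ℕ) + k then 2 * (2 + B) ^ k else 0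
    with hg
  have h4 : ∀ j : Fin N, |it V N j k j - loc V k (((j : ℕ) : ℤ) + 1)| ≤ g j := by
    intro j
    simp only [hg]
    split_ifs with h
    · have a1 := it_bound hV j k j
      have a2 := lm.1 B V hV k (((j : ℕ) : ℤ) + 1)
      exact (abs_sub _ _).trans (by linarith)
    · rw [not_or, not_lt, not_le] at h
      rw [it_loc V k j h.1 h.2, sub_self, abs_zero]
  refine (Finset.abs_sum_le_sum_abs _ _).trans ((Finset.sum_le_sum fun j _ => h4 j).trans ?_)
  have h5 : ∑ j : Fin N, g j = ∑ n ∈ Finset.range N,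
      (if n < k ∨ N ≤ n + k then 2 * (2 + B) ^ k else 0) :=
    Fin.sum_univ_eq_sum_range (fun n => if n < k ∨ N ≤ n + k then 2 * (2 + B) ^ k else 0) N
  rw [h5, ← Finset.sum_filter, Finset.sum_const, nsmul_eq_mul]
  refine mul_le_mul_of_nonneg_right ?_ (by positivity)
  have h6 : (Finset.range N).filter (fun n => n < k ∨ N ≤ n + k) ⊆
      Finset.range k ∪ Finset.Ico (N - k) N := by
    intro n hn
    simp only [Finset.mem_filter, Finset.mem_range, Finset.mem_union, Finset.mem_Ico] at hn ⊢
    omega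
  have h7 := (Finset.card_le_card h6).trans (Finset.card_union_le _ _)
  rw [Finset.card_range, Nat.card_Ico] at h7
  have h8 : ((Finset.range N).filter (fun n => n < k ∨ N ≤ n + k)).card ≤ 2 * k := by omega
  exact_mod_cast h8

/-- size of the eigenvalues -/
lemma eig_size {B : ℝ} (hV : ∀ n, |V n| ≤ B) (i : Fin N) :
    |(HM_herm V N).eigenvalues i| ≤ 2 + B := by
  classical
  have hB : 0 ≤ B := (abs_nonneg _).trans (hV 0)
  set E := (HM_herm V N).eigenvalues i with hE
  have hv := (HM_herm V N).mulVec_eigenvectorBasis i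
  set w : Fin N → ℝ := ⇑((HM_herm V N).eigenvectorBasis i) with hw
  have hw0 : w ≠ 0 := by
    intro h0
    have h1 := (HM_herm V N).eigenvectorBasis.orthonormal.1 i
    have h2 : (HM_herm V N).eigenvectorBasis i = 0 := by
      ext x
      have := congrFun h0 x
      simpa [hw] using this
    rw [h2, norm_zero] at h1
    norm_num at h1
  obtain ⟨j0, -, hmax⟩ := Finset.univ.exists_max_image (fun j => |w j|) ⟨i, Finset.mem_univ i⟩
  have hpos : 0 < |w j0| := by
    obtain ⟨j, hj⟩ := Function.ne_iff.1 hw0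
    exact (abs_pos.2 hj).trans_le (hmax j (Finset.mem_univ j))
  have h1 : (HM V N).mulVec w j0 = E * w j0 := by
    rw [hv]; rfl
  rw [HM_mul] at h1
  have h2 := sch_bound hV (f := e0 w) (e0_bound w (abs_nonneg (w j0))
    (fun j => hmax j (Finset.mem_univ j))) ((j0 : ℕ) + 1)
  rw [h1, abs_mul] at h2
  exact le_of_mul_le_mul_right h2 hpos

end Pool.Agent.N658.FD
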