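import Pool.Agent.N658.FD.Restr

/-!
The density of states measure as the limit of the eigenvalue counting measures.
-/

set_option autoImplicit false

open MeasureTheory Filter Topology Set ProbabilityTheory

namespace Pool.Agent.N658.FD

open Pool.Agent.W811.Stu Pool.Agent.W811.Dos Pool.Agent.W965.Stu Pool.Agent.W745.Fib
open Pool.Agent.H695R3.ST Pool.Agent.W247.Dos Pool.Agent.W688.Dos Pool.Agent.H84R3
open Pool.Agent.W672.Dos

/-! ### equidistribution for every phase -/

lemma ud_phase (ω : ℝ) : UD (fun n => ((n:ℝ) + 1) * al + ω) := by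
  refine ud_of_weyl _ fun k hk => ?_
  have h := geo al_irr k hk
  have h2 := h.const_mul (ex (k * ω))
  rw [mul_zero] at h2
  refine h2.congr fun N => ?_
  unfold A
  rw [mul_div_assoc', Finset.mul_sum]
  congr 1
  refine Finset.sum_congr rfl fun n _ => ?_
  rw [← ex_add]
  congr 1
  ring

lemma pot_shift_phase (lam ω : ℝ) (n : ℤ) :
    (fun j => pot lam al ω (j + n)) = pot lam al (n * al + ω) := by
  funext j
  unfold pot
  congr 3
  push_cast
  ring

theorem wl_phase (lam ω : ℝ) (k : ℕ) :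
    Tendsto (fun N : ℕ => (∑ n ∈ Finset.range N, loc (pot lam al ω) k ((n : ℤ) + 1)) / (N : ℝ))
      atTop (𝓝 (Mo lam al k)) := by
  have hm : (fun ω => loc (pot lam al ω) k 0) ∈ SS := sch_mem al_pos al_lt k 0
  have h2 := (avg_SS (ud_phase ω) hm).2
  refine h2.congr fun N => ?_
  congr 1
  refine Finset.sum_congr rfl fun n _ => ?_
  have e1 := loc_shift (pot lam al ω) k ((n : ℤ) + 1)
  rw [pot_shift_phase] at e1
  rw [e1]
  push_cast
  rfl

/-- moments of the density of states measure -/
lemma mu_moment {lam : ℝ} (hl : 0 < lam) (k : ℕ) : ∫ x, x ^ k ∂(mu lam) = Mo lam al k := by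
  have h1 := moments Pool.Agent.W247.Dos.tr Pool.Agent.W688.Dos.wl Pool.Agent.W688.Dos.zc hl
    al_irr al_pos al_lt k
  have h2 := ((mu_spec hl).2.1 (fun x => x ^ k) (by fun_prop)).comp (tendsto_add_atTop_nat 1)
  rw [dig_al] at h1
  exact tendsto_nhds_unique h2 h1

/-- support of the density of states measure -/
lemma mu_supp {lam : ℝ} (hl : 0 < lam) : mu lam (Icc (-(2 + lam)) (2 + lam))ᶜ = 0 := by
  have hlo : ∀ E, E < -(2 + lam) → ids lam E = 0 := by
    intro E hE
    refine tendsto_nhds_unique (ids_lim hl E) ?_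
    refine tendsto_const_nhds.congr' ?_
    filter_upwards [eventually_ge_atTop 1] with m hm
    have : cle (zs lam m one) E = 0 := by
      unfold cle
      rw [Finset.card_eq_zero, Finset.filter_eq_empty_iff]
      intro x hx hxE
      have h1 : x ∈ Zr lam (m + 1) := hx
      have := abs_le.1 (Zr_le hl (by omega) h1)
      linarith [this.1]
    rw [this]; simp
  have hhi : ids lam (2 + lam) = 1 := by
    refine tendsto_nhds_unique (ids_lim hl (2 + lam)) ?_
    refine tendsto_const_nhds.congr' ?_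
    filter_upwards [eventually_ge_atTop 1] with m hm
    have h0 : cle (zs lam m one) (2 + lam) = (zs lam m one).card := by
      unfold cle
      congr 1
      rw [Finset.filter_eq_self]
      intro x hx
      have h1 : x ∈ Zr lam (m + 1) := hx
      exact (abs_le.1 (Zr_le hl (by omega) h1)).2
    have hc : (zs lam m one).card = Nat.fib (m + 1) := card_Zr hl (n := m + 1) (by omega)
    rw [h0, hc, div_self]
    have : 0 < Nat.fib (m + 1) := Nat.fib_pos.2 (by omega)
    exact_mod_cast this.ne'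
  have h1 : mu lam (Ioi (2 + lam)) = 0 := by
    have h2 : (mu lam).real (Iic (2 + lam)) = 1 := by
      rw [← cdf_eq_real]; exact hhi
    rw [← compl_Iic, prob_compl_eq_zero_iff measurableSet_Iic]
    rw [Measure.real, ENNReal.toReal_eq_one_iff] at h2
    exact h2
  have h3 : mu lam (Iio (-(2 + lam))) = 0 := by
    have hz : ∀ n : ℕ, mu lam (Iic (-(2 + lam) - 1 / ((n : ℝ) + 1))) = 0 := by
      intro n
      have h4 := hlo (-(2 + lam) - 1 / ((n : ℝ) + 1)) (by
        have : 0 < 1 / ((n : ℝ) + 1) := by positivity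
        linarith)
      unfold ids at h4
      rw [cdf_eq_real, Measure.real, ENNReal.toReal_eq_zero_iff] at h4
      rcases h4 with h | h
      · exact h
      · exact absurd h (measure_ne_top _ _)
    have hU : Iio (-(2 + lam)) ⊆ ⋃ n : ℕ, Iic (-(2 + lam) - 1 / ((n : ℝ) + 1)) := by
      intro x hx
      have hx' : x < -(2 + lam) := hx
      obtain ⟨n, hn⟩ := exists_nat_one_div_lt (show 0 < -(2 + lam) - x by linarith)
      exact mem_iUnion.2 ⟨n, by show x ≤ _; linarith⟩
    exact measure_mono_null hU (measure_iUnion_null hz)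
  have h5 : (Icc (-(2 + lam)) (2 + lam))ᶜ ⊆ Iio (-(2 + lam)) ∪ Ioi (2 + lam) := by
    intro x hx
    by_contra hcon
    rw [mem_union, not_or, mem_Iio, mem_Ioi, not_lt, not_lt] at hcon
    exact hx hcon
  exact measure_mono_null h5 (measure_union_null h3 h1)

/-- averages over the eigenvalues -/
theorem eig_lim {lam : ℝ} (hl : 0 < lam) (ω : ℝ) (g : ℝ → ℝ) (hg : Continuous g) :
    Tendsto (fun N : ℕ => (∑ i, g ((HM_herm (pot lam al ω) N).eigenvalues i)) / (N : ℝ)) atTop
      (𝓝 (∫ x, g x ∂(mu lam))) := by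
  have hV := pot_abs_le hl.le al ω
  have hR0 : (0 : ℝ) ≤ 2 + lam := by linarith
  -- powers
  have hpow : ∀ k : ℕ, Tendsto (fun N : ℕ =>
      (∑ i, ((HM_herm (pot lam al ω) N).eigenvalues i) ^ k) / (N : ℝ)) atTop
      (𝓝 (∫ x, x ^ k ∂(mu lam))) := by
    intro k
    rw [mu_moment hl]
    have h1 : Tendsto (fun N : ℕ => (∑ i, ((HM_herm (pot lam al ω) N).eigenvalues i) ^ k) /
        (N : ℝ) - (∑ n ∈ Finset.range N, loc (pot lam al ω) k ((n : ℤ) + 1)) / (N : ℝ)) atTop
        (𝓝 0) := by
      refine squeeze_zero_norm (a := fun N : ℕ => (2 * k * (2 * (2 + lam) ^ k)) / (N : ℝ)) ?_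
        (tendsto_const_div_atTop_nhds_zero_nat _)
      intro N
      rw [← sub_div, Real.norm_eq_abs, abs_div, Nat.abs_cast]
      exact div_le_div_of_nonneg_right (eig_pow_close hV N k) (Nat.cast_nonneg N)
    have h2 := h1.add (wl_phase lam ω k)
    rw [zero_add] at h2
    refine h2.congr fun N => ?_
    ring
  -- polynomials
  have hpoly : ∀ p : Polynomial ℝ, Tendsto (fun N : ℕ =>
      (∑ i, p.eval ((HM_herm (pot lam al ω) N).eigenvalues i)) / (N : ℝ)) atTop
      (𝓝 (∫ x, p.eval x ∂(mu lam))) := by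
    intro p
    rw [int_poly hR0 (mu_supp hl) p]
    simp only [Polynomial.eval_eq_sum, Polynomial.sum_def]
    have h3 : ∀ N : ℕ, (∑ i, ∑ k ∈ p.support, p.coeff k *
        ((HM_herm (pot lam al ω) N).eigenvalues i) ^ k) / (N : ℝ) =
        ∑ k ∈ p.support, p.coeff k *
          ((∑ i, ((HM_herm (pot lam al ω) N).eigenvalues i) ^ k) / (N : ℝ)) := by
      intro N
      rw [Finset.sum_comm, Finset.sum_div]
      refine Finset.sum_congr rfl fun k _ => ?_
      rw [← Finset.mul_sum, mul_div_assoc]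
    simp only [h3]
    exact tendsto_finsetSum _ fun k _ => (hpow k).const_mul _
  rw [Metric.tendsto_atTop]
  intro ε hε
  obtain ⟨p, hp⟩ := exists_polynomial_near_of_continuousOn (-(2 + lam)) (2 + lam) g hg.continuousOn
    (ε / 4) (by linarith)
  obtain ⟨N0, hN⟩ := Metric.tendsto_atTop.mp (hpoly p) (ε / 4) (by linarith)
  refine ⟨max 1 N0, fun N hN' => ?_⟩
  have h1 := hN N ((le_max_right _ _).trans hN')
  have hN1 : (0 : ℝ) < N := by
    have : 1 ≤ N := (le_max_left _ _).trans hN'
    exact_mod_cast this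
  have h2 : |(∑ i, g ((HM_herm (pot lam al ω) N).eigenvalues i)) / (N : ℝ) -
      (∑ i, p.eval ((HM_herm (pot lam al ω) N).eigenvalues i)) / (N : ℝ)| ≤ ε / 4 := by
    rw [← sub_div, ← Finset.sum_sub_distrib, abs_div, Nat.abs_cast, div_le_iff₀ hN1]
    refine (Finset.abs_sum_le_sum_abs _ _).trans ?_
    have h3 : ∀ i ∈ (Finset.univ : Finset (Fin N)),
        |g ((HM_herm (pot lam al ω) N).eigenvalues i) -
          p.eval ((HM_herm (pot lam al ω) N).eigenvalues i)| ≤ ε / 4 := by
      intro i _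
      rw [abs_sub_comm]
      exact (hp _ (abs_le.1 (eig_size hV i))).le
    refine (Finset.sum_le_sum h3).trans ?_
    rw [Finset.sum_const, Finset.card_univ, Fintype.card_fin, nsmul_eq_mul]
    linarith
  have h3 : |∫ x, p.eval x ∂(mu lam) - ∫ x, g x ∂(mu lam)| ≤ ε / 4 :=
    int_sub_le hR0 (mu_supp hl) (by fun_prop) hg fun x hx => (hp x (abs_le.mp hx)).le
  rw [Real.dist_eq] at h1 ⊢
  rw [abs_le] at h2 h3
  rw [abs_lt] at h1 ⊢
  constructor <;> linarith [h1.1, h1.2, h2.1, h2.2, h3.1, h3.2]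

/-- **the integrated density of states by counting eigenvalues** -/
theorem count_lim {lam : ℝ} (hl : 0 < lam) (ω E : ℝ) :
    Tendsto (fun N : ℕ => ((((HM (pot lam al ω) N).charpoly.roots.filter (fun x => x ≤ E)).card :
      ℕ) : ℝ) / (N : ℝ)) atTop (𝓝 ((mu lam (Iic E)).toReal)) := by
  have h := cdf_lim (M := fun N => (HM (pot lam al ω) N).charpoly.roots)
    (c := fun N : ℕ => (N : ℝ)) (fun m => Nat.cast_nonneg _) (μ := mu lam)
    (fun g hg _ => by
      refine (eig_lim hl ω g hg).congr fun N => ?_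
      congr 1
      rw [(HM_herm (pot lam al ω) N).roots_charpoly_eq_eigenvalues, Multiset.map_map]
      rfl) ((mu_spec hl).2.2 E)
  rw [cdf_eq_real] at h
  exact h

end Pool.Agent.N658.FD
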